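import Mathlib

/-!
# Hermitian forms in three variables over a finite field with an involution
-/

set_option autoImplicit false

namespace Pool.Agent.W332.PT

open Matrix

/-- a finite field with `q ^ 2` elements, `q` odd, with its involution `x ↦ x ^ q` -/
structure HermField (k : Type) [Field k] [Fintype k] (σ : k →+* k) (q : ℕ) : Prop where
  card : Fintype.card k = q ^ 2
  pow : ∀ x, σ x = x ^ q
  two : (2 : k) ≠ 0

section basic

variable {k : Type} [Field k] [Fintype k] {σ : k →+* k} {q : ℕ}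

lemma HermField.q_gt (h : HermField k σ q) : 1 < q := by
  have h1 : 1 < Fintype.card k := Fintype.one_lt_card
  rw [h.card] at h1
  by_contra h2
  have : q = 0 ∨ q = 1 := by omega
  rcases this with rfl | rfl <;> simp at h1

lemma HermField.invol (h : HermField k σ q) (x : k) : σ (σ x) = x := by
  rw [h.pow, h.pow, ← pow_mul, ← sq, ← h.card, FiniteField.pow_card]

lemma HermField.norm_surj (h : HermField k σ q) (t : k) (ht : σ t = t) :
    ∃ x, x * σ x = t := by
  by_cases h0 : t = 0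
  · exact ⟨0, by rw [h0]; simp⟩
  have hq := h.q_gt
  obtain ⟨g, hg⟩ := IsCyclic.exists_generator (α := kˣ)
  have hu := hg (Units.mk0 t h0)
  rw [← mem_powers_iff_mem_zpowers, Submonoid.mem_powers_iff] at hu
  obtain ⟨m, hm⟩ := hu
  have ho : orderOf g = q ^ 2 - 1 := by
    rw [orderOf_eq_card_of_forall_mem_zpowers hg, Nat.card_units, Nat.card_eq_fintype_card,
      h.card]
  have h1 : g ^ (m * (q - 1)) = 1 := by
    rw [pow_mul, hm]
    ext
    rw [Units.val_pow_eq_pow_val, Units.val_mk0, Units.val_one]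
    have h2 : t ^ (q - 1) * t = t := by
      rw [← pow_succ, Nat.sub_add_cancel hq.le, ← h.pow, ht]
    exact mul_right_cancel₀ h0 (by rw [h2, one_mul])
  rw [← orderOf_dvd_iff_pow_eq_one, ho] at h1
  have h3 : q ^ 2 - 1 = (q + 1) * (q - 1) := by
    have := Nat.sq_sub_sq q 1
    simpa using this
  rw [h3] at h1
  obtain ⟨n, hn⟩ := Nat.dvd_of_mul_dvd_mul_right (by omega) h1
  refine ⟨((g ^ n : kˣ) : k), ?_⟩
  rw [h.pow, ← pow_succ']
  have : ((g ^ n : kˣ) : k) ^ (q + 1) = ((g ^ m : kˣ) : k) := by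
    rw [hn, mul_comm, pow_mul]; simp
  rw [this, hm, Units.val_mk0]

lemma HermField.card_norm_le [DecidableEq k] (h : HermField k σ q) (t : k) :
    (Finset.univ.filter fun x : k => x * σ x = t).card ≤ q + 1 := by
  have hsub : (Finset.univ.filter fun x : k => x * σ x = t) ⊆
      (Polynomial.X ^ (q + 1) - Polynomial.C t : Polynomial k).roots.toFinset := by
    intro x hx
    rw [Finset.mem_filter] at hx
    have hne : (Polynomial.X ^ (q + 1) - Polynomial.C t : Polynomial k) ≠ 0 :=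
      Polynomial.X_pow_sub_C_ne_zero (Nat.succ_pos q) t
    rw [Multiset.mem_toFinset, Polynomial.mem_roots hne]
    simp only [Polynomial.IsRoot.def, Polynomial.eval_sub, Polynomial.eval_pow,
      Polynomial.eval_X, Polynomial.eval_C]
    rw [sub_eq_zero, ← hx.2, h.pow, pow_succ']
  refine (Finset.card_le_card hsub).trans ?_
  refine (Multiset.toFinset_card_le _).trans ?_
  refine (Polynomial.card_roots' _).trans ?_
  rw [Polynomial.natDegree_X_pow_sub_C]

end basic

section form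

variable {k : Type} [Field k] (σ : k →+* k)

/-- the standard hermitian form -/
def hh (x y : Fin 3 → k) : k := x 0 * σ (y 0) + x 1 * σ (y 1) + x 2 * σ (y 2)

variable {σ}

lemma hh_smul_left (c : k) (x y : Fin 3 → k) : hh σ (c • x) y = c * hh σ x y := by
  simp only [hh, Pi.smul_apply, smul_eq_mul]; ring

lemma hh_smul_right (c : k) (x y : Fin 3 → k) : hh σ x (c • y) = σ c * hh σ x y := by
  simp only [hh, Pi.smul_apply, smul_eq_mul, map_mul]; ring

lemma hh_symm (hσ : ∀ x, σ (σ x) = x) (x y : Fin 3 → k) : hh σ y x = σ (hh σ x y) := by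
  simp only [hh, map_add, map_mul, hσ]; ring

lemma hh_symm_zero (hσ : ∀ x, σ (σ x) = x) {x y : Fin 3 → k} (h : hh σ x y = 0) :
    hh σ y x = 0 := by
  rw [hh_symm hσ x y, h, map_zero]

/-- conjugate cross product -/
def cc (σ : k →+* k) (v r : Fin 3 → k) : Fin 3 → k :=
  ![σ (v 1 * r 2 - v 2 * r 1), σ (v 2 * r 0 - v 0 * r 2), σ (v 0 * r 1 - v 1 * r 0)]

lemma hh_cc_left (hσ : ∀ x, σ (σ x) = x) (v r : Fin 3 → k) : hh σ v (cc σ v r) = 0 := by
  simp [hh, cc, hσ]
  ring

lemma hh_cc_right (hσ : ∀ x, σ (σ x) = x) (v r : Fin 3 → k) : hh σ r (cc σ v r) = 0 := by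
  simp [hh, cc, hσ]
  ring

lemma hh_cc_self (hσ : ∀ x, σ (σ x) = x) (v r : Fin 3 → k) :
    hh σ (cc σ v r) (cc σ v r) = hh σ v v * hh σ r r - hh σ v r * hh σ r v := by
  simp [hh, cc, hσ]
  ring

variable (σ) in
/-- special unitary group of the standard hermitian form -/
def SU : Subgroup (Matrix.SpecialLinearGroup (Fin 3) k) where
  carrier := {g | ∀ x y, hh σ (g.1 *ᵥ x) (g.1 *ᵥ y) = hh σ x y}
  mul_mem' := by
    intro a b ha hb x y
    rw [Matrix.SpecialLinearGroup.coe_mul, ← Matrix.mulVec_mulVec, ← Matrix.mulVec_mulVec, ha, hb]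
  one_mem' := by
    intro x y
    simp
  inv_mem' := by
    intro a ha x y
    have h1 : ∀ z, a.1 *ᵥ ((a⁻¹).1 *ᵥ z) = z := by
      intro z
      rw [Matrix.mulVec_mulVec, ← Matrix.SpecialLinearGroup.coe_mul, mul_inv_cancel]
      simp
    rw [← ha, h1, h1]

/-- the matrix with given columns -/
def cols (a b c : Fin 3 → k) : Matrix (Fin 3) (Fin 3) k :=
  !![a 0, b 0, c 0; a 1, b 1, c 1; a 2, b 2, c 2]

lemma cols_mulVec (a b c x : Fin 3 → k) :
    cols a b c *ᵥ x = x 0 • a + x 1 • b + x 2 • c := by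
  ext i
  fin_cases i <;> simp [cols, Matrix.mulVec, dotProduct, Fin.sum_univ_three] <;> ring

lemma hh_comb (a b c x y : Fin 3 → k)
    (haa : hh σ a a = 1) (hbb : hh σ b b = 1) (hcc : hh σ c c = 1)
    (hab : hh σ a b = 0) (hba : hh σ b a = 0) (hac : hh σ a c = 0) (hca : hh σ c a = 0)
    (hbc : hh σ b c = 0) (hcb : hh σ c b = 0) :
    hh σ (x 0 • a + x 1 • b + x 2 • c) (y 0 • a + y 1 • b + y 2 • c) = hh σ x y := by
  have e : hh σ (x 0 • a + x 1 • b + x 2 • c) (y 0 • a + y 1 • b + y 2 • c)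
      = x 0 * σ (y 0) * hh σ a a + x 0 * σ (y 1) * hh σ a b + x 0 * σ (y 2) * hh σ a c
      + x 1 * σ (y 0) * hh σ b a + x 1 * σ (y 1) * hh σ b b + x 1 * σ (y 2) * hh σ b c
      + x 2 * σ (y 0) * hh σ c a + x 2 * σ (y 1) * hh σ c b + x 2 * σ (y 2) * hh σ c c := by
    simp only [hh, Pi.add_apply, Pi.smul_apply, smul_eq_mul, map_add, map_mul]
    ring
  rw [e, haa, hbb, hcc, hab, hba, hac, hca, hbc, hcb]
  simp only [hh]
  ring

/-- standard basis vector -/
def e3 (i : Fin 3) : Fin 3 → k := Pi.single i 1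

lemma trans_pair [Fintype k] {q : ℕ} (hF : HermField k σ q) (v r : Fin 3 → k)
    (hv : hh σ v v ≠ 0) (hr : hh σ r r ≠ 0) (hvr : hh σ v r = 0) :
    ∃ g ∈ SU σ, ∃ μ ν : k, μ ≠ 0 ∧ ν ≠ 0 ∧ g.1 *ᵥ (e3 0) = μ • v ∧ g.1 *ᵥ (e3 1) = ν • r := by
  have hσ := hF.invol
  have fix : ∀ x : Fin 3 → k, σ (hh σ x x) = hh σ x x := fun x => (hh_symm hσ x x).symm
  obtain ⟨μ, hμ⟩ := hF.norm_surj (hh σ v v)⁻¹ (by rw [map_inv₀, fix])
  obtain ⟨ν, hν⟩ := hF.norm_surj (hh σ r r)⁻¹ (by rw [map_inv₀, fix])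
  have hμ0 : μ ≠ 0 := by
    rintro rfl
    rw [zero_mul] at hμ
    exact inv_ne_zero hv hμ.symm
  have hν0 : ν ≠ 0 := by
    rintro rfl
    rw [zero_mul] at hν
    exact inv_ne_zero hr hν.symm
  set a := μ • v with ha
  set b := ν • r with hb
  set c := cc σ a b with hc
  have haa : hh σ a a = 1 := by
    rw [ha, hh_smul_left, hh_smul_right, ← mul_assoc, hμ, inv_mul_cancel₀ hv]
  have hbb : hh σ b b = 1 := by
    rw [hb, hh_smul_left, hh_smul_right, ← mul_assoc, hν, inv_mul_cancel₀ hr]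
  have hab : hh σ a b = 0 := by
    rw [ha, hb, hh_smul_left, hh_smul_right, hvr, mul_zero, mul_zero]
  have hba : hh σ b a = 0 := hh_symm_zero hσ hab
  have hac : hh σ a c = 0 := hh_cc_left hσ a b
  have hbc : hh σ b c = 0 := hh_cc_right hσ a b
  have hca : hh σ c a = 0 := hh_symm_zero hσ hac
  have hcb : hh σ c b = 0 := hh_symm_zero hσ hbc
  have hcc : hh σ c c = 1 := by
    rw [hc, hh_cc_self hσ, haa, hbb, hab]; ring
  have hdet : (cols a b c).det = 1 := by
    rw [← hcc]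
    rw [Matrix.det_fin_three]
    simp only [cols, hh, hc, cc]
    simp [hσ]
    ring
  refine ⟨⟨cols a b c, hdet⟩, ?_, μ, ν, hμ0, hν0, ?_, ?_⟩
  · intro x y
    show hh σ (cols a b c *ᵥ x) (cols a b c *ᵥ y) = hh σ x y
    rw [cols_mulVec, cols_mulVec]
    exact hh_comb a b c x y haa hbb hcc hab hba hac hca hbc hcb
  · show cols a b c *ᵥ (e3 0) = a
    rw [cols_mulVec]
    simp [e3]
  · show cols a b c *ᵥ (e3 1) = b
    rw [cols_mulVec]
    simp [e3]

lemma exists_orth [Fintype k] {q : ℕ} (hF : HermField k σ q) (v : Fin 3 → k)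
    (hv : hh σ v v ≠ 0) : ∃ r, hh σ r r ≠ 0 ∧ hh σ v r = 0 := by
  have hσ := hF.invol
  by_contra hcon
  push Not at hcon
  have key : ∀ i : Fin 3, hh σ v v = v i * σ (v i) := by
    intro i
    have h1 : hh σ v (cc σ v (e3 i)) = 0 := hh_cc_left hσ _ _
    have h2 : hh σ (cc σ v (e3 i)) (cc σ v (e3 i)) = 0 := by
      by_contra h3
      exact hcon _ h3 h1
    rw [hh_cc_self hσ] at h2
    have h4 : hh σ (e3 i) (e3 i) = 1 := by
      fin_cases i <;> simp [hh, e3]
    have h5 : hh σ v (e3 i) = v i := by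
      fin_cases i <;> simp [hh, e3]
    have h6 : hh σ (e3 i) v = σ (v i) := by
      fin_cases i <;> simp [hh, e3]
    rw [h4, h5, h6, mul_one] at h2
    exact sub_eq_zero.1 h2
  have h0 := key 0
  have h1 := key 1
  have h2 := key 2
  have h3 : hh σ v v = v 0 * σ (v 0) + v 1 * σ (v 1) + v 2 * σ (v 2) := rfl
  rw [← h0, ← h1, ← h2] at h3
  have h4 : (2 : k) * hh σ v v = 0 := by linear_combination -h3
  rcases mul_eq_zero.1 h4 with h5 | h5
  · exact hF.two h5
  · exact hv h5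

end form

end Pool.Agent.W332.PT
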