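import Mathlib
import Pool.Agent.W332.PT.Herm

/-!
# Counting in a three dimensional hermitian space over a finite field
-/

set_option autoImplicit false

namespace Pool.Agent.W332.PT

open Matrix

section count

variable {k : Type} [Field k] [Fintype k] [DecidableEq k] {σ : k →+* k} {q : ℕ}

/-- the linear functional `u ↦ hh u v` -/
def lin (σ : k →+* k) (v : Fin 3 → k) : (Fin 3 → k) →ₗ[k] k where
  toFun u := hh σ u v
  map_add' x y := by simp only [hh, Pi.add_apply]; ring
  map_smul' c x := by simp only [hh, Pi.smul_apply, smul_eq_mul, RingHom.id_apply]; ring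

lemma card_orth (hF : HermField k σ q) (v : Fin 3 → k) (hv : v ≠ 0) :
    (Finset.univ.filter fun u : Fin 3 → k => hh σ u v = 0).card = q ^ 4 := by
  have hσinj : Function.Injective σ := σ.injective
  have hne : lin σ v ≠ 0 := by
    intro h0
    apply hv
    ext i
    have h1 : lin σ v (e3 i) = 0 := by rw [h0]; rfl
    have h2 : lin σ v (e3 i) = σ (v i) := by
      show hh σ (e3 i) v = σ (v i)
      fin_cases i <;> simp [hh, e3]
    rw [h2] at h1
    exact (map_eq_zero σ).1 h1
  have hsurj : LinearMap.range (lin σ v) = ⊤ :=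
    LinearMap.range_eq_top.2 (LinearMap.surjective hne)
  have h1 := LinearMap.finrank_range_add_finrank_ker (lin σ v)
  rw [hsurj, finrank_top, Module.finrank_self, Module.finrank_fintype_fun_eq_card,
    Fintype.card_fin] at h1
  have h2 : Module.finrank k (LinearMap.ker (lin σ v)) = 2 := by omega
  have h3 := Module.natCard_eq_pow_finrank (K := k) (V := LinearMap.ker (lin σ v))
  rw [h2, Nat.card_eq_fintype_card (α := k), hF.card, ← pow_mul] at h3
  rw [← h3, ← Fintype.card_subtype, ← Nat.card_eq_fintype_card]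
  rfl

lemma cross_eq_zero {v s : Fin 3 → k} (hv : v ≠ 0)
    (h0 : v 1 * s 2 = v 2 * s 1) (h1 : v 2 * s 0 = v 0 * s 2) (h2 : v 0 * s 1 = v 1 * s 0) :
    ∃ c : k, s = c • v := by
  have : ∃ i, v i ≠ 0 := by
    by_contra hcon
    push Not at hcon
    exact hv (funext hcon)
  obtain ⟨i, hi⟩ := this
  refine ⟨s i / v i, ?_⟩
  ext j
  rw [Pi.smul_apply, smul_eq_mul, div_mul_eq_mul_div, eq_div_iff hi]
  fin_cases i <;> fin_cases j <;> simp <;> first | ring1 | linear_combination h0 | linear_combination h1 | linear_combination h2 | linear_combination -h0 | linear_combination -h1 | linear_combination -h2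

lemma card_orth_pair (hF : HermField k σ q) (v s : Fin 3 → k) (hv : v ≠ 0)
    (hs : ¬ ∃ c : k, s = c • v) :
    (Finset.univ.filter fun u : Fin 3 → k => hh σ u v = 0 ∧ hh σ u s = 0).card = q ^ 2 := by
  classical
  set p : Fin 3 → k := cc σ v s with hp
  have hσ := hF.invol
  have hp0 : p ≠ 0 := by
    intro h
    apply hs
    have e0 : p 0 = 0 := by rw [h]; rfl
    have e1 : p 1 = 0 := by rw [h]; rfl
    have e2 : p 2 = 0 := by rw [h]; rfl
    have f0 : v 1 * s 2 - v 2 * s 1 = 0 := by
      apply (map_eq_zero σ).1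
      simpa [hp, cc] using e0
    have f1 : v 2 * s 0 - v 0 * s 2 = 0 := by
      apply (map_eq_zero σ).1
      simpa [hp, cc] using e1
    have f2 : v 0 * s 1 - v 1 * s 0 = 0 := by
      apply (map_eq_zero σ).1
      simpa [hp, cc] using e2
    exact cross_eq_zero hv (sub_eq_zero.1 f0) (sub_eq_zero.1 f1) (sub_eq_zero.1 f2)
  have heq : (Finset.univ.filter fun u : Fin 3 → k => hh σ u v = 0 ∧ hh σ u s = 0)
      = Finset.univ.image (fun c : k => c • p) := by
    ext u
    simp only [Finset.mem_filter, Finset.mem_univ, true_and, Finset.mem_image]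
    constructor
    · rintro ⟨h1, h2⟩
      have p0 : p 0 = σ (v 1) * σ (s 2) - σ (v 2) * σ (s 1) := by simp [hp, cc]
      have p1 : p 1 = σ (v 2) * σ (s 0) - σ (v 0) * σ (s 2) := by simp [hp, cc]
      have p2 : p 2 = σ (v 0) * σ (s 1) - σ (v 1) * σ (s 0) := by simp [hp, cc]
      unfold hh at h1 h2
      obtain ⟨c, hc⟩ := cross_eq_zero (v := p) (s := u) hp0
        (by rw [p1, p2]; linear_combination -(σ (v 0)) * h2 + (σ (s 0)) * h1)
        (by rw [p2, p0]; linear_combination -(σ (v 1)) * h2 + (σ (s 1)) * h1)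
        (by rw [p0, p1]; linear_combination -(σ (v 2)) * h2 + (σ (s 2)) * h1)
      exact ⟨c, hc.symm⟩
    · rintro ⟨c, rfl⟩
      rw [hh_smul_left, hh_smul_left, hh_symm_zero hσ (hh_cc_left hσ v s),
        hh_symm_zero hσ (hh_cc_right hσ v s)]
      simp
  rw [heq, Finset.card_image_of_injective, Finset.card_univ, hF.card]
  intro a b hab
  have : ∃ i, p i ≠ 0 := by
    by_contra hcon
    push Not at hcon
    exact hp0 (funext hcon)
  obtain ⟨i, hi⟩ := this
  have h1 := congrFun hab i
  simp only [Pi.smul_apply, smul_eq_mul] at h1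
  exact mul_right_cancel₀ hi h1

/-- nonisotropic vectors -/
def Om (σ : k →+* k) : Finset (Fin 3 → k) := Finset.univ.filter fun v => hh σ v v ≠ 0

lemma mem_Om {v : Fin 3 → k} : v ∈ Om σ ↔ hh σ v v ≠ 0 := by
  simp [Om]

lemma ne_zero_of_mem_Om {v : Fin 3 → k} (h : v ∈ Om σ) : v ≠ 0 := by
  rintro rfl
  rw [mem_Om] at h
  apply h
  simp [hh]

/-- bad pairs -/
lemma card_bad (hF : HermField k σ q) :
    (Finset.univ.filter fun p : k × k => p.1 * σ p.1 + p.2 * σ p.2 = 0).card
      ≤ 1 + (q ^ 2 - 1) * (q + 1) := by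
  rw [Finset.card_eq_sum_card_fiberwise (f := Prod.fst) (t := Finset.univ)
    (fun x _ => Finset.mem_coe.2 (Finset.mem_univ _))]
  have h1 : ∀ b : k, (Finset.filter (fun p : k × k => p.1 = b) (Finset.univ.filter fun p : k × k =>
      p.1 * σ p.1 + p.2 * σ p.2 = 0)).card ≤ if b = 0 then 1 else q + 1 := by
    intro b
    have h2 : (Finset.filter (fun p : k × k => p.1 = b) (Finset.univ.filter fun p : k × k =>
      p.1 * σ p.1 + p.2 * σ p.2 = 0)).card ≤
      (Finset.univ.filter fun x : k => x * σ x = -(b * σ b)).card := by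
      apply Finset.card_le_card_of_injOn (fun p => p.2)
      · intro p hp
        simp only [Finset.coe_filter, Finset.mem_filter, Finset.mem_univ, true_and,
          Set.mem_ofPred_eq] at hp ⊢
        rw [← hp.2]
        linear_combination hp.1
      · intro p hp r hr hpr
        simp only [Finset.coe_filter, Finset.mem_filter, Finset.mem_univ, true_and,
          Set.mem_ofPred_eq] at hp hr
        exact Prod.ext (by rw [hp.2, hr.2]) hpr
    refine h2.trans ?_
    split_ifs with hb
    · subst hb
      rw [Finset.card_le_one]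
      intro x hx y hy
      simp only [Finset.mem_filter, Finset.mem_univ, true_and, zero_mul, neg_zero,
        mul_eq_zero, map_eq_zero, or_self] at hx hy
      rw [hx, hy]
    · exact hF.card_norm_le _
  refine (Finset.sum_le_sum fun b _ => h1 b).trans ?_
  rw [Finset.sum_ite, Finset.sum_const, Finset.sum_const, smul_eq_mul, smul_eq_mul]
  have h3 : (Finset.filter (fun x : k => x = 0) Finset.univ).card = 1 := by
    rw [Finset.card_eq_one]; exact ⟨0, by ext; simp⟩
  have h4 : (Finset.filter (fun x : k => ¬ x = 0) Finset.univ).card = q ^ 2 - 1 := by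
    have h5 := Finset.card_filter_add_card_filter_not (s := (Finset.univ : Finset k)) (fun x : k => x = 0)
    rw [h3, Finset.card_univ, hF.card] at h5
    omega
  rw [h3, h4]

lemma card_good_e0 (hF : HermField k σ q) :
    q ^ 4 ≤ ((Om σ).filter fun v => hh σ (e3 0) v = 0).card + (1 + (q ^ 2 - 1) * (q + 1)) := by
  have h1 := Finset.card_filter_add_card_filter_not (s := (Finset.univ : Finset (k × k)))
    (fun p : k × k => p.1 * σ p.1 + p.2 * σ p.2 = 0)
  rw [Finset.card_univ, Fintype.card_prod, hF.card] at h1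
  have h2 := card_bad hF
  have h3 : (Finset.univ.filter fun p : k × k => ¬ (p.1 * σ p.1 + p.2 * σ p.2 = 0)).card ≤
      ((Om σ).filter fun v => hh σ (e3 0) v = 0).card := by
    apply Finset.card_le_card_of_injOn (fun p => ![0, p.1, p.2])
    · intro p hp
      simp only [Finset.coe_filter, Finset.mem_univ, true_and, Set.mem_ofPred_eq, mem_Om] at hp ⊢
      constructor
      · simpa [hh] using hp
      · simp [hh, e3]
    · intro p _ r _ hpr
      have a := congrFun hpr 1
      have b := congrFun hpr 2
      simp at a b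
      exact Prod.ext a b
  have h4 : q ^ 2 * q ^ 2 = q ^ 4 := by ring
  omega

lemma card_good (hF : HermField k σ q) (u : Fin 3 → k) (hu : u ∈ Om σ) :
    q ^ 4 ≤ ((Om σ).filter fun v => hh σ u v = 0).card + (1 + (q ^ 2 - 1) * (q + 1)) := by
  refine (card_good_e0 hF).trans ?_
  apply Nat.add_le_add_right
  have hu' := mem_Om.1 hu
  obtain ⟨r, hr, hur⟩ := exists_orth hF u hu'
  obtain ⟨g, hg, μ, ν, hμ, hν, h1, h2⟩ := trans_pair hF u r hu' hr hur
  apply Finset.card_le_card_of_injOn (fun v => g.1 *ᵥ v)
  · intro v hv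
    simp only [Finset.coe_filter, Set.mem_ofPred_eq, mem_Om] at hv ⊢
    constructor
    · have := hg v v
      rw [this]; exact hv.1
    · have h3 := hg (e3 0) v
      rw [h1, hh_smul_left, hv.2] at h3
      exact (mul_eq_zero.1 h3).resolve_left hμ
  · intro v _ w _ hvw
    have h3 := congrArg (fun z => (g⁻¹).1 *ᵥ z) hvw
    simp only [Matrix.mulVec_mulVec, ← Matrix.SpecialLinearGroup.coe_mul, inv_mul_cancel] at h3
    simpa using h3

end count

end Pool.Agent.W332.PT
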