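import Mathlib

/-!
# A spectral criterion for property (T) for groups generated by three copies of a finite group
-/

set_option autoImplicit false

namespace Pool.Agent.W332.PT

section rr

variable {V : Type*} [NormedAddCommGroup V] [InnerProductSpace ℂ V]

/-- real part of the inner product -/
noncomputable def rr (x y : V) : ℝ := (inner ℂ x y : ℂ).re

lemma rr_add_left (x y z : V) : rr (x + y) z = rr x z + rr y z := by
  simp [rr]

lemma rr_add_right (x y z : V) : rr x (y + z) = rr x y + rr x z := by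
  simp [rr]

lemma rr_sub_left (x y z : V) : rr (x - y) z = rr x z - rr y z := by
  simp [rr]

lemma rr_sub_right (x y z : V) : rr x (y - z) = rr x y - rr x z := by
  simp [rr]

lemma rr_half_left (x y : V) : rr ((1/2 : ℂ) • x) y = 1/2 * rr x y := by
  have h0 : (1/2 : ℂ) = ((1/2 : ℝ) : ℂ) := by simp
  simp only [rr, inner_smul_left]
  rw [h0, Complex.conj_ofReal, Complex.re_ofReal_mul]

lemma rr_half_right (x y : V) : rr x ((1/2 : ℂ) • y) = 1/2 * rr x y := by
  have : (1/2 : ℂ) = ((1/2 : ℝ) : ℂ) := by simp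
  simp only [rr, inner_smul_right]
  rw [this, Complex.re_ofReal_mul]

lemma rr_comm (x y : V) : rr x y = rr y x := by
  simp only [rr]
  rw [← inner_conj_symm, Complex.conj_re]

lemma rr_self (x : V) : rr x x = ‖x‖ ^ 2 := by
  simp only [rr, inner_self_eq_norm_sq_to_K]
  norm_cast

lemma rr_le (x y : V) : rr x y ≤ ‖(inner ℂ x y : ℂ)‖ := Complex.re_le_norm _

end rr

section avg

variable {V : Type*} [NormedAddCommGroup V] [InnerProductSpace ℂ V] [CompleteSpace V]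
variable {K : Type*} [Group K] [Fintype K]

/-- unitary operators preserve inner products -/
lemma unitary_inner (u : unitary (V →L[ℂ] V)) (x y : V) :
    inner ℂ ((u : V →L[ℂ] V) x) ((u : V →L[ℂ] V) y) = (inner ℂ x y : ℂ) := by
  rw [← ContinuousLinearMap.adjoint_inner_right]
  have h : ContinuousLinearMap.adjoint (u : V →L[ℂ] V) * (u : V →L[ℂ] V) = 1 := by
    have := u.2.1
    rwa [ContinuousLinearMap.star_eq_adjoint] at this
  have h2 : (ContinuousLinearMap.adjoint (u : V →L[ℂ] V)) ((u : V →L[ℂ] V) y) = y := by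
    have := congrArg (fun T : V →L[ℂ] V => T y) h
    simpa using this
  rw [h2]

lemma unitary_norm (u : unitary (V →L[ℂ] V)) (x : V) :
    ‖(u : V →L[ℂ] V) x‖ = ‖x‖ := by
  have h := unitary_inner u x x
  rw [inner_self_eq_norm_sq_to_K, inner_self_eq_norm_sq_to_K] at h
  have h' : ‖(u : V →L[ℂ] V) x‖ ^ 2 = ‖x‖ ^ 2 := by exact_mod_cast h
  nlinarith [norm_nonneg ((u : V →L[ℂ] V) x), norm_nonneg x, sq_nonneg (‖(u : V →L[ℂ] V) x‖ - ‖x‖), sq_abs (‖(u : V →L[ℂ] V) x‖), (sq_eq_sq₀ (norm_nonneg ((u : V →L[ℂ] V) x)) (norm_nonneg x)).1 h']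

lemma rep_mul_apply {G : Type*} [Group G] (π : G →* unitary (V →L[ℂ] V)) (g h : G) (v : V) :
    (π (g * h) : V →L[ℂ] V) v = (π g : V →L[ℂ] V) ((π h : V →L[ℂ] V) v) := by
  rw [map_mul]; rfl

lemma rep_one_apply {G : Type*} [Group G] (π : G →* unitary (V →L[ℂ] V)) (v : V) :
    (π 1 : V →L[ℂ] V) v = v := by
  rw [map_one]; rfl

/-- inner product with an inverse -/
lemma rep_inner_inv {G : Type*} [Group G] (π : G →* unitary (V →L[ℂ] V)) (g : G) (v w : V) :
    inner ℂ ((π g : V →L[ℂ] V) v) w = (inner ℂ v ((π g⁻¹ : V →L[ℂ] V) w) : ℂ) := by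
  rw [← unitary_inner (π g) v ((π g⁻¹ : V →L[ℂ] V) w), ← rep_mul_apply, mul_inv_cancel,
    rep_one_apply]

/-- averaging over a finite group -/
noncomputable def avg (π : K →* unitary (V →L[ℂ] V)) (v : V) : V :=
  ((Fintype.card K : ℂ)⁻¹) • ∑ g, (π g : V →L[ℂ] V) v

lemma avg_fixed (π : K →* unitary (V →L[ℂ] V)) (h : K) (v : V) :
    (π h : V →L[ℂ] V) (avg π v) = avg π v := by
  unfold avg
  rw [map_smul, map_sum]
  congr 1
  rw [← Equiv.sum_comp (Equiv.mulLeft h) (fun g => (π g : V →L[ℂ] V) v)]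
  refine Finset.sum_congr rfl fun g _ => ?_
  rw [Equiv.coe_mulLeft, rep_mul_apply]

lemma card_ne : (Fintype.card K : ℂ) ≠ 0 := by
  exact_mod_cast Fintype.card_ne_zero

lemma avg_of_fixed (π : K →* unitary (V →L[ℂ] V)) (v : V)
    (hv : ∀ h, (π h : V →L[ℂ] V) v = v) : avg π v = v := by
  unfold avg
  rw [Finset.sum_congr rfl fun g _ => hv g, Finset.sum_const, Finset.card_univ,
    ← Nat.cast_smul_eq_nsmul ℂ, smul_smul, inv_mul_cancel₀ card_ne, one_smul]

lemma inner_avg (π : K →* unitary (V →L[ℂ] V)) (v w : V) :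
    inner ℂ (avg π v) w = (inner ℂ v (avg π w) : ℂ) := by
  unfold avg
  rw [inner_smul_left, inner_smul_right, sum_inner, inner_sum]
  have h1 : (starRingEnd ℂ) ((Fintype.card K : ℂ)⁻¹) = (Fintype.card K : ℂ)⁻¹ := by
    simp
  rw [h1]
  congr 1
  rw [← Equiv.sum_comp (Equiv.inv K) (fun g => (inner ℂ v ((π g : V →L[ℂ] V) w) : ℂ))]
  refine Finset.sum_congr rfl fun g _ => ?_
  rw [Equiv.inv_apply, rep_inner_inv]

lemma norm_avg_sub_le (π : K →* unitary (V →L[ℂ] V)) (v : V) {δ : ℝ}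
    (h : ∀ g, ‖(π g : V →L[ℂ] V) v - v‖ ≤ δ) : ‖avg π v - v‖ ≤ δ := by
  have h0 : avg π v - v = ((Fintype.card K : ℂ)⁻¹) • ∑ g, ((π g : V →L[ℂ] V) v - v) := by
    rw [Finset.sum_sub_distrib, smul_sub]
    unfold avg
    congr 1
    rw [Finset.sum_const, Finset.card_univ, ← Nat.cast_smul_eq_nsmul ℂ, smul_smul,
      inv_mul_cancel₀ card_ne, one_smul]
  rw [h0, norm_smul, norm_inv, Complex.norm_natCast]
  have h2 : ‖∑ g, ((π g : V →L[ℂ] V) v - v)‖ ≤ (Fintype.card K : ℝ) * δ := by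
    refine (norm_sum_le _ _).trans ?_
    refine (Finset.sum_le_sum fun g _ => h g).trans ?_
    rw [Finset.sum_const, Finset.card_univ, nsmul_eq_mul]
  have hc : (0 : ℝ) < Fintype.card K := by exact_mod_cast Fintype.card_pos
  rw [inv_mul_le_iff₀ hc]
  exact h2

lemma rr_avg (π : K →* unitary (V →L[ℂ] V)) (v w : V) :
    rr (avg π v) w = rr v (avg π w) := by
  simp only [rr, inner_avg]

lemma avg_idem (π : K →* unitary (V →L[ℂ] V)) (v : V) : avg π (avg π v) = avg π v :=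
  avg_of_fixed _ _ fun h => avg_fixed π h v

lemma avg_add (π : K →* unitary (V →L[ℂ] V)) (v w : V) :
    avg π (v + w) = avg π v + avg π w := by
  unfold avg
  simp [Finset.sum_add_distrib]

lemma avg_smul (π : K →* unitary (V →L[ℂ] V)) (c : ℂ) (v : V) :
    avg π (c • v) = c • avg π v := by
  unfold avg
  rw [smul_comm c]
  congr 1
  rw [Finset.smul_sum]
  simp

lemma continuous_avg (π : K →* unitary (V →L[ℂ] V)) : Continuous (avg π : V → V) := by
  unfold avg
  fun_prop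

lemma avg_sub (π : K →* unitary (V →L[ℂ] V)) (v w : V) :
    avg π (v - w) = avg π v - avg π w := by
  unfold avg
  simp [Finset.sum_sub_distrib, smul_sub]

/-- Pythagoras -/
lemma norm_sub_avg_sq (π : K →* unitary (V →L[ℂ] V)) (v : V) :
    ‖v - avg π v‖ ^ 2 = ‖v‖ ^ 2 - ‖avg π v‖ ^ 2 := by
  rw [← rr_self, ← rr_self, ← rr_self, rr_sub_left, rr_sub_right, rr_sub_right,
    rr_avg π v v, rr_comm v (avg π v)]
  have : rr (avg π v) (avg π v) = rr v (avg π v) := by
    rw [rr_avg, avg_idem]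
  rw [this, rr_comm (avg π v) v]
  ring

end avg


/-- local spectral property: vectors fixed by two different members of `H` make a large angle -/
def LP (K : Type) [Group K] (H : Fin 3 → Subgroup K) (ε : ℝ) : Prop :=
  ∀ (V : Type) [NormedAddCommGroup V] [InnerProductSpace ℂ V] [CompleteSpace V]
    (π : K →* unitary (V →L[ℂ] V)) (a b : Fin 3), a ≠ b → ∀ x y : V,
    (∀ h ∈ H a, (π h : V →L[ℂ] V) x = x) → (∀ h ∈ H b, (π h : V →L[ℂ] V) y = y) →
    (∀ w : V, (∀ g, (π g : V →L[ℂ] V) w = w) → inner ℂ w y = (0 : ℂ)) →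
    ‖(inner ℂ x y : ℂ)‖ ≤ ε * ‖x‖ * ‖y‖

section trickle

variable {V : Type} [NormedAddCommGroup V] [InnerProductSpace ℂ V] [CompleteSpace V]
variable {K : Type} [Group K] [Fintype K]

lemma local_ineq {H : Fin 3 → Subgroup K} {ε : ℝ} (hLP : LP K H ε) (hε : 0 ≤ ε)
    (π : K →* unitary (V →L[ℂ] V)) {a b : Fin 3} (hab : a ≠ b) (x y : V)
    (hx : ∀ h ∈ H a, (π h : V →L[ℂ] V) x = x) (hy : ∀ h ∈ H b, (π h : V →L[ℂ] V) y = y) :
    rr x y ≤ rr (avg π x) (avg π y)
      + ε / 2 * (‖x‖ ^ 2 - ‖avg π x‖ ^ 2 + (‖y‖ ^ 2 - ‖avg π y‖ ^ 2)) := by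
  have h1 := hLP V π a b hab (x - avg π x) (y - avg π y)
    (fun h hh => by rw [map_sub, hx h hh, avg_fixed])
    (fun h hh => by rw [map_sub, hy h hh, avg_fixed])
    (fun w hw => by
      have hw' : avg π w = w := avg_of_fixed π w hw
      rw [inner_sub_right, ← inner_avg, hw', sub_self])
  have h2 : rr (x - avg π x) (y - avg π y) = rr x y - rr (avg π x) (avg π y) := by
    rw [rr_sub_left, rr_sub_right, rr_sub_right]
    have e1 : rr x (avg π y) = rr (avg π x) (avg π y) := by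
      rw [rr_avg, avg_idem]
    have e2 : rr (avg π x) y = rr (avg π x) (avg π y) := by
      rw [← rr_avg π (avg π x) y, avg_idem]
    rw [e1, e2]; ring
  have h3 := rr_le (x - avg π x) (y - avg π y)
  have h4 := norm_sub_avg_sq π x
  have h5 := norm_sub_avg_sq π y
  have h6 : ε * ‖x - avg π x‖ * ‖y - avg π y‖
      ≤ ε / 2 * (‖x - avg π x‖ ^ 2 + ‖y - avg π y‖ ^ 2) := by
    nlinarith [mul_nonneg hε (sq_nonneg (‖x - avg π x‖ - ‖y - avg π y‖))]
  rw [h4, h5] at h6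
  linarith

/-- one step -/
noncomputable def step (π : Fin 3 → (K →* unitary (V →L[ℂ] V))) (f : Fin 3 → V) : Fin 3 → V :=
  fun k => (1/2 : ℂ) • avg (π k) (f (k + 1) + f (k + 2))

/-- total norm -/
noncomputable def NN (f : Fin 3 → V) : ℝ := ∑ k, ‖f k‖ ^ 2

/-- total correlation -/
noncomputable def RR (f : Fin 3 → V) : ℝ := ∑ k : Fin 3, rr (f (k + 1)) (f (k + 2))

lemma step_fixed (π : Fin 3 → (K →* unitary (V →L[ℂ] V))) (f : Fin 3 → V) (k : Fin 3) (h : K) :
    (π k h : V →L[ℂ] V) (step π f k) = step π f k := by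
  unfold step
  rw [map_smul, avg_fixed]

lemma RR_le {H : Fin 3 → Subgroup K} {ε : ℝ} (hLP : LP K H ε) (hε : 0 ≤ ε)
    (π : Fin 3 → (K →* unitary (V →L[ℂ] V)))
    (hπ : ∀ i j k : Fin 3, i ≠ j → j ≠ k → i ≠ k → ∀ h ∈ H k, π i h = π j h)
    (f : Fin 3 → V) (hf : ∀ k h, (π k h : V →L[ℂ] V) (f k) = f k) :
    RR f ≤ (1 - ε) * NN (step π f) + ε * NN f := by
  have key : ∀ k : Fin 3, rr (f (k + 1)) (f (k + 2)) ≤ (1 - ε) * ‖step π f k‖ ^ 2
      + ε / 2 * (‖f (k + 1)‖ ^ 2 + ‖f (k + 2)‖ ^ 2) := by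
    intro k
    have h1 : k + 2 ≠ k + 1 := by revert k; decide
    have h2 : k ≠ k + 1 := by revert k; decide
    have h3 : k ≠ k + 2 := by revert k; decide
    have l := local_ineq hLP hε (π k) h1 (f (k + 1)) (f (k + 2))
      (fun h hh => by
        rw [hπ k (k + 1) (k + 2) h2 h1.symm h3 h hh]
        exact hf _ _)
      (fun h hh => by
        rw [hπ k (k + 2) (k + 1) h3 h1 h2 h hh]
        exact hf _ _)
    set p := avg (π k) (f (k + 1)) with hp
    set q := avg (π k) (f (k + 2)) with hq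
    have hs : step π f k = (1/2 : ℂ) • (p + q) := by
      unfold step
      rw [avg_add]
    have hn : ‖step π f k‖ ^ 2 = 1/4 * (‖p‖ ^ 2 + 2 * rr p q + ‖q‖ ^ 2) := by
      rw [hs, ← rr_self, rr_half_left, rr_half_right, rr_add_left, rr_add_right, rr_add_right,
        rr_self, rr_self, rr_comm q p]
      ring
    have hc : 2 * rr p q ≤ ‖p‖ ^ 2 + ‖q‖ ^ 2 := by
      have : 0 ≤ rr (p - q) (p - q) := by rw [rr_self]; positivity
      rw [rr_sub_left, rr_sub_right, rr_sub_right, rr_self, rr_self, rr_comm q p] at this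
      linarith
    rw [hn]
    nlinarith [mul_nonneg hε (sub_nonneg.2 hc)]
  have s := Finset.sum_le_sum (s := Finset.univ) fun k _ => key k
  refine le_trans s (le_of_eq ?_)
  simp only [NN, Fin.sum_univ_three]
  have e1 : (0 : Fin 3) + 1 = 1 := rfl
  have e2 : (0 : Fin 3) + 2 = 2 := rfl
  have e3 : (1 : Fin 3) + 1 = 2 := rfl
  have e4 : (1 : Fin 3) + 2 = 0 := rfl
  have e5 : (2 : Fin 3) + 1 = 0 := rfl
  have e6 : (2 : Fin 3) + 2 = 1 := rfl
  rw [e1, e2, e3, e4, e5, e6]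
  ring

lemma step_ineq (π : Fin 3 → (K →* unitary (V →L[ℂ] V)))
    (f : Fin 3 → V) (hf : ∀ k h, (π k h : V →L[ℂ] V) (f k) = f k) :
    NN (step π f) - RR (step π f) ≤ (NN f - NN (step π f)) / 2 ∧
    NN (fun k => f k - step π f k) = NN f - 2 * RR f + NN (step π f) := by
  set g := step π f with hg
  have hgf : ∀ k h, (π k h : V →L[ℂ] V) (g k) = g k := fun k h => step_fixed π f k h
  have A : ∀ k, rr (f (k + 1)) (g k) + rr (f (k + 2)) (g k) = 2 * ‖g k‖ ^ 2 := by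
    intro k
    have h1 : avg (π k) (g k) = g k := avg_of_fixed _ _ (hgf k)
    have h2 : rr (f (k + 1) + f (k + 2)) (avg (π k) (g k)) = 2 * rr (g k) (g k) := by
      rw [← rr_avg]
      have : g k = (1/2 : ℂ) • avg (π k) (f (k + 1) + f (k + 2)) := rfl
      have h3 : rr (g k) (g k) = rr ((1/2 : ℂ) • avg (π k) (f (k + 1) + f (k + 2))) (g k) := by
        rw [← this]
      rw [h3, rr_half_left]; ring
    rw [h1, rr_add_left, rr_self] at h2
    exact h2
  have B : ∀ k, rr (f (k + 1)) (f k) + rr (f (k + 2)) (f k) = 2 * rr (g k) (f k) := by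
    intro k
    have h1 : avg (π k) (f k) = f k := avg_of_fixed _ _ (hf k)
    have h2 : rr (f (k + 1) + f (k + 2)) (avg (π k) (f k)) = 2 * rr (g k) (f k) := by
      rw [← rr_avg]
      have : g k = (1/2 : ℂ) • avg (π k) (f (k + 1) + f (k + 2)) := rfl
      have h3 : rr (g k) (f k) = rr ((1/2 : ℂ) • avg (π k) (f (k + 1) + f (k + 2))) (f k) := by
        rw [← this]
      rw [h3, rr_half_left]; ring
    rw [h1, rr_add_left] at h2
    exact h2
  have hpos : 0 ≤ rr ((f 0 - g 0) + (f 1 - g 1) + (f 2 - g 2))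
      ((f 0 - g 0) + (f 1 - g 1) + (f 2 - g 2)) := by rw [rr_self]; positivity
  have A0 := A 0
  have A1 := A 1
  have A2 := A 2
  have B0 := B 0
  have B1 := B 1
  have B2 := B 2
  have e1 : (0 : Fin 3) + 1 = 1 := rfl
  have e2 : (0 : Fin 3) + 2 = 2 := rfl
  have e3 : (1 : Fin 3) + 1 = 2 := rfl
  have e4 : (1 : Fin 3) + 2 = 0 := rfl
  have e5 : (2 : Fin 3) + 1 = 0 := rfl
  have e6 : (2 : Fin 3) + 2 = 1 := rfl
  rw [e1, e2] at A0 B0
  rw [e3, e4] at A1 B1
  rw [e5, e6] at A2 B2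
  simp only [NN, RR, Fin.sum_univ_three, e1, e2, e3, e4, e5, e6]
  simp only [← rr_self] at *
  simp only [rr_add_left, rr_add_right, rr_sub_left, rr_sub_right] at *
  rw [rr_comm (f 1) (f 0), rr_comm (f 2) (f 0)] at B0
  rw [rr_comm (f 2) (f 1)] at B1
  rw [rr_comm (f 2) (f 0)]
  rw [rr_comm (g 2) (g 0)]
  rw [rr_comm (f 1) (f 0), rr_comm (f 2) (f 0), rr_comm (f 2) (f 1),
    rr_comm (g 1) (g 0), rr_comm (g 2) (g 0), rr_comm (g 2) (g 1),
    rr_comm (f 0) (g 0), rr_comm (f 0) (g 1), rr_comm (f 0) (g 2),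
    rr_comm (f 1) (g 0), rr_comm (f 1) (g 1), rr_comm (f 1) (g 2),
    rr_comm (f 2) (g 0), rr_comm (f 2) (g 1), rr_comm (f 2) (g 2)] at hpos
  rw [rr_comm (f 1) (g 0), rr_comm (f 2) (g 0)] at A0
  rw [rr_comm (f 2) (g 1), rr_comm (f 0) (g 1)] at A1
  rw [rr_comm (f 0) (g 2), rr_comm (f 1) (g 2)] at A2
  rw [rr_comm (f 0) (g 0), rr_comm (f 1) (g 1), rr_comm (f 2) (g 2)]
  constructor
  · linarith
  · linarith

/-- energy -/
noncomputable def EE (f : Fin 3 → V) : ℝ := NN f - RR f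

lemma EE_eq (f : Fin 3 → V) :
    EE f = 1/2 * (‖f 0 - f 1‖ ^ 2 + ‖f 1 - f 2‖ ^ 2 + ‖f 0 - f 2‖ ^ 2) := by
  have e1 : (0 : Fin 3) + 1 = 1 := rfl
  have e2 : (0 : Fin 3) + 2 = 2 := rfl
  have e3 : (1 : Fin 3) + 1 = 2 := rfl
  have e4 : (1 : Fin 3) + 2 = 0 := rfl
  have e5 : (2 : Fin 3) + 1 = 0 := rfl
  have e6 : (2 : Fin 3) + 2 = 1 := rfl
  simp only [EE, NN, RR, Fin.sum_univ_three, e1, e2, e3, e4, e5, e6, ← rr_self, rr_sub_left,
    rr_sub_right]
  rw [rr_comm (f 1) (f 0), rr_comm (f 2) (f 0), rr_comm (f 2) (f 1)]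
  ring

lemma EE_nonneg (f : Fin 3 → V) : 0 ≤ EE f := by
  rw [EE_eq]; positivity

lemma step_EE {H : Fin 3 → Subgroup K} {ε : ℝ} (hLP : LP K H ε) (hε : 0 ≤ ε) (hε1 : ε < 1/2)
    (π : Fin 3 → (K →* unitary (V →L[ℂ] V)))
    (hπ : ∀ i j k : Fin 3, i ≠ j → j ≠ k → i ≠ k → ∀ h ∈ H k, π i h = π j h)
    (f : Fin 3 → V) (hf : ∀ k h, (π k h : V →L[ℂ] V) (f k) = f k) :
    EE (step π f) ≤ (1 / (2 * (1 - ε))) * EE f ∧
    ∀ k, ‖step π f k - f k‖ ^ 2 ≤ 2 * EE f := by
  have h1 := RR_le hLP hε π hπ f hf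
  obtain ⟨h2, h3⟩ := step_ineq π f hf
  have h4 : 0 ≤ EE (step π f) := EE_nonneg _
  have h5 : 0 ≤ EE f := EE_nonneg _
  unfold EE at *
  constructor
  · have h6 : 0 < 2 * (1 - ε) := by linarith
    rw [div_mul_eq_mul_div, le_div_iff₀ h6]
    nlinarith
  · intro k
    have h6 : ‖step π f k - f k‖ ^ 2 ≤ NN (fun k => f k - step π f k) := by
      unfold NN
      rw [norm_sub_rev]
      exact Finset.single_le_sum (f := fun k => ‖f k - step π f k‖ ^ 2)
        (fun i _ => by positivity) (Finset.mem_univ k)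
    have h7 : NN (step π f) ≤ NN f := by linarith
    rw [h3] at h6
    linarith

end trickle

/-- **Property (T) criterion.** -/
theorem propT {K G : Type} [Group K] [Fintype K] [Group G] (ι : Fin 3 → (K →* G))
    (H : Fin 3 → Subgroup K)
    (hgen : Subgroup.closure (⋃ i, Set.range (ι i)) = ⊤)
    (hH : ∀ i j k : Fin 3, i ≠ j → j ≠ k → i ≠ k → ∀ h ∈ H k, ι i h = ι j h)
    {ε : ℝ} (hε : 0 ≤ ε) (hε1 : ε < 1/2) (hLP : LP K H ε)
    (V : Type) [NormedAddCommGroup V] [InnerProductSpace ℂ V] [CompleteSpace V]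
    (ρ : G →* unitary (V →L[ℂ] V))
    (hai : ∀ (S : Finset G) (ε : ℝ), 0 < ε →
      ∃ v : V, ‖v‖ = 1 ∧ ∀ s ∈ S, ‖(ρ s : V →L[ℂ] V) v - v‖ < ε) :
    ∃ v : V, v ≠ 0 ∧ ∀ g : G, (ρ g : V →L[ℂ] V) v = v := by
  classical
  set π : Fin 3 → (K →* unitary (V →L[ℂ] V)) := fun i => ρ.comp (ι i) with hπdef
  have hπ : ∀ i j k : Fin 3, i ≠ j → j ≠ k → i ≠ k → ∀ h ∈ H k, π i h = π j h := by
    intro i j k h1 h2 h3 h hh
    simp only [hπdef, MonoidHom.comp_apply]
    rw [hH i j k h1 h2 h3 h hh]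
  set r : ℝ := Real.sqrt (1 / (2 * (1 - ε))) with hr
  have hr0 : 0 ≤ 1 / (2 * (1 - ε)) := by
    apply div_nonneg <;> linarith
  have hrsq : r ^ 2 = 1 / (2 * (1 - ε)) := Real.sq_sqrt hr0
  have hr1 : r < 1 := by
    rw [hr, Real.sqrt_lt' one_pos, one_pow, div_lt_one (by linarith)]
    linarith
  have hrn : 0 ≤ r := Real.sqrt_nonneg _
  -- choose delta
  set δ : ℝ := (1 - r) / 10 with hδ
  have hδ0 : 0 < δ := by rw [hδ]; linarith
  obtain ⟨v, hv1, hv2⟩ := hai (Finset.univ.image (fun p : Fin 3 × K => ι p.1 p.2)) δ hδ0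
  have hv3 : ∀ k h, ‖(π k h : V →L[ℂ] V) v - v‖ ≤ δ := by
    intro k h
    refine le_of_lt (hv2 (ι k h) ?_)
    exact Finset.mem_image.2 ⟨(k, h), Finset.mem_univ _, rfl⟩
  -- the sequence
  let F : ℕ → Fin 3 → V := fun n => Nat.rec (fun k => avg (π k) v) (fun _ f => step π f) n
  have F0 : F 0 = fun k => avg (π k) v := rfl
  have FS : ∀ n, F (n + 1) = step π (F n) := fun n => rfl
  have hF : ∀ n k h, (π k h : V →L[ℂ] V) (F n k) = F n k := by
    intro n
    cases n with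
    | zero => intro k h; rw [F0]; exact avg_fixed _ _ _
    | succ n => intro k h; rw [FS]; exact step_fixed _ _ _ _
  have hE : ∀ n, EE (F n) ≤ (r ^ 2) ^ n * EE (F 0) := by
    intro n
    induction n with
    | zero => simp
    | succ n ih =>
      rw [FS]
      refine (step_EE hLP hε hε1 π hπ (F n) (hF n)).1.trans ?_
      rw [← hrsq]
      have h5 : (r ^ 2) ^ (n + 1) * EE (F 0) = r ^ 2 * ((r ^ 2) ^ n * EE (F 0)) := by ring
      rw [h5]
      exact mul_le_mul_of_nonneg_left ih (by positivity)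
  have hE0 : EE (F 0) ≤ 6 * δ ^ 2 := by
    have hk : ∀ k, ‖F 0 k - v‖ ≤ δ := fun k => norm_avg_sub_le (π k) v (hv3 k)
    have hkk : ∀ k l, ‖F 0 k - F 0 l‖ ^ 2 ≤ (2 * δ) ^ 2 := by
      intro k l
      have : ‖F 0 k - F 0 l‖ ≤ 2 * δ := by
        have : F 0 k - F 0 l = (F 0 k - v) - (F 0 l - v) := by abel
        rw [this]
        refine (norm_sub_le _ _).trans ?_
        linarith [hk k, hk l]
      exact pow_le_pow_left₀ (norm_nonneg _) this 2
    rw [EE_eq]
    nlinarith [hkk 0 1, hkk 1 2, hkk 0 2]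
  have hdist : ∀ k n, dist (F n k) (F (n + 1) k) ≤ (4 * δ) * r ^ n := by
    intro k n
    have h1 := (step_EE hLP hε hε1 π hπ (F n) (hF n)).2 k
    rw [← FS] at h1
    rw [dist_comm, dist_eq_norm]
    have h2 : ‖F (n + 1) k - F n k‖ ^ 2 ≤ ((4 * δ) * r ^ n) ^ 2 := by
      refine h1.trans ?_
      have h3 := hE n
      have h4 : ((4 * δ) * r ^ n) ^ 2 = 16 * δ ^ 2 * (r ^ 2) ^ n := by
        rw [mul_pow, ← pow_mul, ← pow_mul, mul_comm n 2]; ring
      rw [h4]
      have h5 : 0 ≤ (r ^ 2) ^ n := by positivity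
      nlinarith [mul_le_mul_of_nonneg_left hE0 h5, mul_nonneg h5 (sq_nonneg δ)]
    exact le_of_sq_le_sq h2 (by positivity) 
  have hcau : ∀ k, CauchySeq (fun n => F n k) := fun k =>
    cauchySeq_of_le_geometric r (4 * δ) hr1 (hdist k)
  choose w hw using fun k => cauchySeq_tendsto_of_complete (hcau k)
  have hw0 : ∀ k, dist (F 0 k) (w k) ≤ (4 * δ) / (1 - r) := fun k =>
    dist_le_of_le_geometric_of_tendsto₀ r (4 * δ) hr1 (hdist k) (hw k)
  -- the limit has energy zero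
  have hEtend : Filter.Tendsto (fun n => EE (F n)) Filter.atTop (nhds 0) := by
    refine squeeze_zero (fun n => EE_nonneg _) hE ?_
    have h1 : Filter.Tendsto (fun n => (r ^ 2) ^ n * EE (F 0)) Filter.atTop
        (nhds (0 * EE (F 0))) := by
      apply Filter.Tendsto.mul_const
      apply tendsto_pow_atTop_nhds_zero_of_lt_one (by positivity)
      nlinarith
    simpa using h1
  have hEw : EE w = 0 := by
    have h1 : Filter.Tendsto (fun n => EE (F n)) Filter.atTop (nhds (EE w)) := by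
      simp only [EE_eq]
      have a0 := hw 0
      have a1 := hw 1
      have a2 := hw 2
      exact ((((a0.sub a1).norm.pow 2).add ((a1.sub a2).norm.pow 2)).add
        ((a0.sub a2).norm.pow 2)).const_mul _
    exact tendsto_nhds_unique h1 hEtend
  have hfix : ∀ k h, (π k h : V →L[ℂ] V) (w k) = w k := by
    intro k h
    have h1 : Filter.Tendsto (fun n => (π k h : V →L[ℂ] V) (F n k)) Filter.atTop
        (nhds ((π k h : V →L[ℂ] V) (w k))) :=
      ((π k h : V →L[ℂ] V).continuous.tendsto _).comp (hw k)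
    simp only [hF] at h1
    exact tendsto_nhds_unique h1 (hw k)
  rw [EE_eq] at hEw
  have h01 : w 0 = w 1 := by
    have : ‖w 0 - w 1‖ ^ 2 ≤ 0 := by
      nlinarith [sq_nonneg ‖w 1 - w 2‖, sq_nonneg ‖w 0 - w 2‖]
    have h2 : ‖w 0 - w 1‖ = 0 := by
      have := le_antisymm this (sq_nonneg _)
      exact pow_eq_zero_iff (two_ne_zero) |>.1 this
    exact sub_eq_zero.1 (norm_eq_zero.1 h2)
  have h02 : w 0 = w 2 := by
    have : ‖w 0 - w 2‖ ^ 2 ≤ 0 := by
      nlinarith [sq_nonneg ‖w 1 - w 2‖, sq_nonneg ‖w 0 - w 1‖]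
    have h2 : ‖w 0 - w 2‖ = 0 := by
      have := le_antisymm this (sq_nonneg _)
      exact pow_eq_zero_iff (two_ne_zero) |>.1 this
    exact sub_eq_zero.1 (norm_eq_zero.1 h2)
  refine ⟨w 0, ?_, ?_⟩
  · intro h0
    have h1 := hw0 0
    rw [h0, dist_zero_right] at h1
    have h2 : ‖F 0 0 - v‖ ≤ δ := norm_avg_sub_le (π 0) v (hv3 0)
    have h3 : (4 * δ) / (1 - r) = 2/5 := by
      rw [hδ, div_eq_iff (by linarith)]; ring
    rw [h3] at h1
    have h4 : ‖v‖ ≤ ‖F 0 0‖ + ‖F 0 0 - v‖ := by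
      have : v = F 0 0 - (F 0 0 - v) := by abel
      calc ‖v‖ = ‖F 0 0 - (F 0 0 - v)‖ := by rw [← this]
        _ ≤ _ := norm_sub_le _ _
    rw [hv1] at h4
    have h5 : δ ≤ 1/10 := by rw [hδ]; linarith
    linarith
  · have hfix' : ∀ k h, (ρ (ι k h) : V →L[ℂ] V) (w 0) = w 0 := by
      intro k h
      have := hfix k h
      fin_cases k
      · exact this
      · rw [h01]; exact this
      · rw [h02]; exact this
    intro g
    have hg : g ∈ Subgroup.closure (⋃ i, Set.range (ι i)) := by rw [hgen]; trivial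
    induction hg using Subgroup.closure_induction with
    | mem x hx =>
      obtain ⟨k, h, rfl⟩ := Set.mem_iUnion.1 hx
      exact hfix' k h
    | one => exact rep_one_apply ρ _
    | mul x y _ _ hx hy => rw [rep_mul_apply, hy, hx]
    | inv x _ hx =>
      have h1 : (ρ x⁻¹ : V →L[ℂ] V) ((ρ x : V →L[ℂ] V) (w 0)) = w 0 := by
        rw [← rep_mul_apply, inv_mul_cancel, rep_one_apply]
      rw [hx] at h1
      exact h1

end Pool.Agent.W332.PT
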