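import Mathlib
import Pool.Agent.W332.PT.Trickle
import Pool.Agent.W332.PT.Count

/-!
# The local spectral estimate for the special unitary group of a three dimensional space
-/

set_option autoImplicit false

namespace Pool.Agent.W332.PT

open Matrix

section stab

variable {k : Type} [Field k] (σ : k →+* k)

/-- stabiliser of the line of the `a`-th basis vector -/
def HH (a : Fin 3) : Subgroup (SU σ) where
  carrier := {g | ∃ μ : k, μ ≠ 0 ∧ g.1.1 *ᵥ e3 a = μ • e3 a}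
  mul_mem' := by
    rintro g h ⟨μ, hμ, h1⟩ ⟨ν, hν, h2⟩
    refine ⟨ν * μ, mul_ne_zero hν hμ, ?_⟩
    rw [Subgroup.coe_mul, Matrix.SpecialLinearGroup.coe_mul, ← Matrix.mulVec_mulVec, h2,
      Matrix.mulVec_smul, h1, smul_smul]
  one_mem' := ⟨1, one_ne_zero, by simp⟩
  inv_mem' := by
    rintro g ⟨μ, hμ, h1⟩
    refine ⟨μ⁻¹, inv_ne_zero hμ, ?_⟩
    have h2 : g⁻¹.1.1 *ᵥ (g.1.1 *ᵥ e3 a) = e3 a := by
      rw [Matrix.mulVec_mulVec, ← Matrix.SpecialLinearGroup.coe_mul, ← Subgroup.coe_mul,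
        inv_mul_cancel]
      simp
    rw [h1, Matrix.mulVec_smul] at h2
    rw [← h2, smul_smul, inv_mul_cancel₀ hμ, one_smul, h2]

lemma mem_HH {a : Fin 3} {g : SU σ} :
    g ∈ HH σ a ↔ ∃ μ : k, μ ≠ 0 ∧ g.1.1 *ᵥ e3 a = μ • e3 a := Iff.rfl

end stab

section est

variable {k : Type} [Field k] [Fintype k] [DecidableEq k] {σ : k →+* k} {q : ℕ}
variable {V : Type} [NormedAddCommGroup V] [InnerProductSpace ℂ V] [CompleteSpace V]

omit [Fintype k] [DecidableEq k] in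
lemma exists_fun (π : SU σ →* unitary (V →L[ℂ] V)) (a : Fin 3) (x : V)
    (hx : ∀ h ∈ HH σ a, (π h : V →L[ℂ] V) x = x) :
    ∃ φ : (Fin 3 → k) → V, ∀ (g : SU σ) (μ : k) (v : Fin 3 → k), μ ≠ 0 →
      g.1.1 *ᵥ e3 a = μ • v → φ v = (π g : V →L[ℂ] V) x := by
  classical
  refine ⟨fun v => if h : ∃ g : SU σ, ∃ μ : k, μ ≠ 0 ∧ g.1.1 *ᵥ e3 a = μ • v then
    (π h.choose : V →L[ℂ] V) x else 0, ?_⟩
  intro g μ v hμ hg
  have hex : ∃ g : SU σ, ∃ μ : k, μ ≠ 0 ∧ g.1.1 *ᵥ e3 a = μ • v := ⟨g, μ, hμ, hg⟩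
  simp only [dif_pos hex]
  obtain ⟨ν, hν, hg'⟩ := hex.choose_spec
  set g' := hex.choose
  have hmem : g⁻¹ * g' ∈ HH σ a := by
    rw [mem_HH]
    refine ⟨ν * μ⁻¹, mul_ne_zero hν (inv_ne_zero hμ), ?_⟩
    rw [Subgroup.coe_mul, Matrix.SpecialLinearGroup.coe_mul, ← Matrix.mulVec_mulVec, hg',
      Matrix.mulVec_smul]
    have h2 : g⁻¹.1.1 *ᵥ (g.1.1 *ᵥ e3 a) = e3 a := by
      rw [Matrix.mulVec_mulVec, ← Matrix.SpecialLinearGroup.coe_mul, ← Subgroup.coe_mul,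
        inv_mul_cancel]
      simp
    rw [hg, Matrix.mulVec_smul] at h2
    rw [← h2, smul_smul, mul_assoc, inv_mul_cancel₀ hμ, mul_one]
  have h3 := hx _ hmem
  have h4 : g' = g * (g⁻¹ * g') := by group
  rw [h4, rep_mul_apply, h3]

lemma rr_sum_left {ι : Type*} (s : Finset ι) (f : ι → V) (y : V) :
    rr (∑ i ∈ s, f i) y = ∑ i ∈ s, rr (f i) y := by
  classical
  induction s using Finset.induction_on with
  | empty => simp [rr]
  | insert a s ha ih => rw [Finset.sum_insert ha, Finset.sum_insert ha, rr_add_left, ih]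

lemma rr_sum_right {ι : Type*} (s : Finset ι) (f : ι → V) (y : V) :
    rr y (∑ i ∈ s, f i) = ∑ i ∈ s, rr y (f i) := by
  rw [rr_comm, rr_sum_left]
  exact Finset.sum_congr rfl fun i _ => rr_comm _ _

/-- the spectral estimate -/
lemma spectral (hF : HermField k σ q) (ψ : (Fin 3 → k) → V) (C : ℝ)
    (hnorm : ∀ v ∈ Om σ, rr (ψ v) (ψ v) = C)
    (hhom : ∀ v ∈ Om σ, ∀ c : k, c • v ∈ Om σ → ψ (c • v) = ψ v)
    (hsum : ∑ v ∈ Om σ, ψ v = 0) :
    ∑ u ∈ Om σ, ‖∑ v ∈ (Om σ).filter (fun v => hh σ u v = 0), ψ v‖ ^ 2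
      ≤ (Om σ).card * (((q : ℝ) ^ 4 - (q : ℝ) ^ 2) * ((q : ℝ) ^ 2 - 1)) * C := by
  classical
  have hq := hF.q_gt
  have hq' : (1 : ℝ) < q := by exact_mod_cast hq
  have hσ := hF.invol
  have step1 : ∑ u ∈ Om σ, ‖∑ v ∈ (Om σ).filter (fun v => hh σ u v = 0), ψ v‖ ^ 2
      ≤ ∑ u : Fin 3 → k, ‖∑ v ∈ (Om σ).filter (fun v => hh σ u v = 0), ψ v‖ ^ 2 :=
    Finset.sum_le_sum_of_subset_of_nonneg (Finset.subset_univ _) (fun _ _ _ => by positivity)
  refine step1.trans ?_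
  have step2 : ∑ u : Fin 3 → k, ‖∑ v ∈ (Om σ).filter (fun v => hh σ u v = 0), ψ v‖ ^ 2
      = ∑ v ∈ Om σ, ∑ s ∈ Om σ,
        ((Finset.univ.filter fun u : Fin 3 → k => hh σ u v = 0 ∧ hh σ u s = 0).card : ℝ)
          * rr (ψ v) (ψ s) := by
    have h1 : ∀ u : Fin 3 → k, ‖∑ v ∈ (Om σ).filter (fun v => hh σ u v = 0), ψ v‖ ^ 2
        = ∑ v ∈ Om σ, ∑ s ∈ Om σ, if hh σ u v = 0 ∧ hh σ u s = 0 then rr (ψ v) (ψ s) else 0 := by
      intro u
      rw [← rr_self, rr_sum_left, Finset.sum_filter]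
      refine Finset.sum_congr rfl fun v _ => ?_
      split_ifs with hv
      · rw [rr_sum_right, Finset.sum_filter]
        refine Finset.sum_congr rfl fun s _ => ?_
        simp [hv]
      · symm
        apply Finset.sum_eq_zero
        intro s _
        simp [hv]
    rw [Finset.sum_congr rfl fun u _ => h1 u, Finset.sum_comm]
    refine Finset.sum_congr rfl fun v _ => ?_
    rw [Finset.sum_comm]
    refine Finset.sum_congr rfl fun s _ => ?_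
    rw [← Finset.sum_filter, Finset.sum_const, nsmul_eq_mul]
  rw [step2]
  have step3 : ∀ v ∈ Om σ, ∑ s ∈ Om σ,
        ((Finset.univ.filter fun u : Fin 3 → k => hh σ u v = 0 ∧ hh σ u s = 0).card : ℝ)
          * rr (ψ v) (ψ s) ≤ ((q : ℝ) ^ 4 - (q : ℝ) ^ 2) * ((q : ℝ) ^ 2 - 1) * C := by
    intro v hv
    have hv0 := ne_zero_of_mem_Om hv
    have h1 : ∀ s ∈ Om σ,
        ((Finset.univ.filter fun u : Fin 3 → k => hh σ u v = 0 ∧ hh σ u s = 0).card : ℝ)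
          * rr (ψ v) (ψ s) = (q : ℝ) ^ 2 * rr (ψ v) (ψ s)
          + if ∃ c : k, s = c • v then ((q : ℝ) ^ 4 - (q : ℝ) ^ 2) * C else 0 := by
      intro s hs
      split_ifs with hc
      · obtain ⟨c, rfl⟩ := hc
        have hc0 : c ≠ 0 := by
          rintro rfl
          exact ne_zero_of_mem_Om hs (zero_smul _ _)
        have h2 : (Finset.univ.filter fun u : Fin 3 → k => hh σ u v = 0 ∧ hh σ u (c • v) = 0)
            = Finset.univ.filter fun u : Fin 3 → k => hh σ u v = 0 := by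
          ext u
          simp only [Finset.mem_filter, Finset.mem_univ, true_and, and_iff_left_iff_imp]
          intro h
          rw [hh_smul_right, h, mul_zero]
        rw [h2, card_orth hF v hv0, hhom v hv c hs, hnorm v hv]
        push_cast
        ring
      · rw [card_orth_pair hF v s hv0 hc]
        push_cast
        ring
    rw [Finset.sum_congr rfl h1, Finset.sum_add_distrib, ← Finset.mul_sum, ← rr_sum_right, hsum]
    have h0 : rr (ψ v) (0 : V) = 0 := by simp [rr]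
    rw [h0, mul_zero, zero_add, ← Finset.sum_filter, Finset.sum_const, nsmul_eq_mul]
    have hcard : ((Om σ).filter fun s => ∃ c : k, s = c • v).card ≤ q ^ 2 - 1 := by
      have h3 : ((Om σ).filter fun s => ∃ c : k, s = c • v) ⊆
          ((Finset.univ : Finset k).erase 0).image (fun c => c • v) := by
        intro s hs
        rw [Finset.mem_filter] at hs
        obtain ⟨hs1, c, rfl⟩ := hs
        refine Finset.mem_image.2 ⟨c, ?_, rfl⟩
        rw [Finset.mem_erase]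
        refine ⟨?_, Finset.mem_univ _⟩
        rintro rfl
        exact ne_zero_of_mem_Om hs1 (zero_smul _ _)
      refine (Finset.card_le_card h3).trans (Finset.card_image_le.trans ?_)
      rw [Finset.card_erase_of_mem (Finset.mem_univ _), Finset.card_univ, hF.card]
    have hcard' : (((Om σ).filter fun s => ∃ c : k, s = c • v).card : ℝ) ≤ (q : ℝ) ^ 2 - 1 := by
      have h4 : (((Om σ).filter fun s => ∃ c : k, s = c • v).card : ℝ) ≤ ((q ^ 2 - 1 : ℕ) : ℝ) := by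
        exact_mod_cast hcard
      rw [Nat.cast_sub (Nat.one_le_pow _ _ (by omega))] at h4
      push_cast at h4
      exact h4
    have hC : 0 ≤ C := by rw [← hnorm v hv, rr_self]; positivity
    have h5 : 0 ≤ ((q : ℝ) ^ 4 - (q : ℝ) ^ 2) * C := by
      apply mul_nonneg _ hC
      have : (q : ℝ) ^ 4 - (q : ℝ) ^ 2 = (q : ℝ) ^ 2 * ((q : ℝ) ^ 2 - 1) := by ring
      rw [this]
      have h6 : (1 : ℝ) ≤ (q : ℝ) ^ 2 := by nlinarith
      have h7 : (0 : ℝ) ≤ (q : ℝ) ^ 2 - 1 := by linarith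
      positivity
    calc _ ≤ ((q : ℝ) ^ 2 - 1) * (((q : ℝ) ^ 4 - (q : ℝ) ^ 2) * C) :=
          mul_le_mul_of_nonneg_right hcard' h5
      _ = _ := by ring
  refine (Finset.sum_le_sum step3).trans ?_
  rw [Finset.sum_const, nsmul_eq_mul]
  linarith

lemma base_est (hF : HermField k σ q) (π : SU σ →* unitary (V →L[ℂ] V)) (x y : V)
    (hx : ∀ h ∈ HH σ 0, (π h : V →L[ℂ] V) x = x) (hy : ∀ h ∈ HH σ 1, (π h : V →L[ℂ] V) y = y)
    (hw : ∀ w : V, (∀ g, (π g : V →L[ℂ] V) w = w) → inner ℂ w y = (0 : ℂ)) :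
    ‖(inner ℂ x y : ℂ)‖ ≤ 1 / ((q : ℝ) - 1) * ‖x‖ * ‖y‖ := by
  classical
  have hσ := hF.invol
  have hq' : (1 : ℝ) < q := by exact_mod_cast hF.q_gt
  obtain ⟨φ, hφ⟩ := exists_fun π 0 x hx
  obtain ⟨ψ, hψ⟩ := exists_fun π 1 y hy
  have ex0 : ∀ u ∈ Om σ, ∃ g : SU σ, ∃ μ : k, μ ≠ 0 ∧ g.1.1 *ᵥ e3 0 = μ • u := by
    intro u hu
    obtain ⟨r, hr, hur⟩ := exists_orth hF u (mem_Om.1 hu)
    obtain ⟨g, hg, μ, ν, hμ, hν, h1, h2⟩ := trans_pair hF u r (mem_Om.1 hu) hr hur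
    exact ⟨⟨g, hg⟩, μ, hμ, h1⟩
  have ex1 : ∀ v ∈ Om σ, ∃ g : SU σ, ∃ μ : k, μ ≠ 0 ∧ g.1.1 *ᵥ e3 1 = μ • v := by
    intro v hv
    obtain ⟨r, hr, hvr⟩ := exists_orth hF v (mem_Om.1 hv)
    obtain ⟨g, hg, μ, ν, hμ, hν, h1, h2⟩ := trans_pair hF r v hr (mem_Om.1 hv)
      (hh_symm_zero hσ hvr)
    exact ⟨⟨g, hg⟩, ν, hν, h2⟩
  have ex01 : ∀ u ∈ Om σ, ∀ v ∈ Om σ, hh σ u v = 0 →
      (inner ℂ (φ u) (ψ v) : ℂ) = inner ℂ x y := by
    intro u hu v hv huv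
    obtain ⟨g, hg, μ, ν, hμ, hν, h1, h2⟩ := trans_pair hF u v (mem_Om.1 hu) (mem_Om.1 hv) huv
    rw [hφ ⟨g, hg⟩ μ u hμ h1, hψ ⟨g, hg⟩ ν v hν h2, unitary_inner]
  have hnormφ : ∀ u ∈ Om σ, ‖φ u‖ = ‖x‖ := by
    intro u hu
    obtain ⟨g, μ, hμ, h1⟩ := ex0 u hu
    rw [hφ g μ u hμ h1, unitary_norm]
  have hnormψ : ∀ v ∈ Om σ, rr (ψ v) (ψ v) = ‖y‖ ^ 2 := by
    intro v hv
    obtain ⟨g, μ, hμ, h1⟩ := ex1 v hv
    rw [hψ g μ v hμ h1, rr_self, unitary_norm]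
  have hhom : ∀ v ∈ Om σ, ∀ c : k, c • v ∈ Om σ → ψ (c • v) = ψ v := by
    intro v hv c hc
    have hc0 : c ≠ 0 := by
      rintro rfl
      exact ne_zero_of_mem_Om hc (zero_smul _ _)
    obtain ⟨g, μ, hμ, h1⟩ := ex1 v hv
    rw [hψ g μ v hμ h1, hψ g (μ * c⁻¹) (c • v) (mul_ne_zero hμ (inv_ne_zero hc0))]
    rw [h1, smul_smul, mul_assoc, inv_mul_cancel₀ hc0, mul_one]
  -- the sum of `ψ` vanishes
  have hsum : ∑ v ∈ Om σ, ψ v = 0 := by
    set W := ∑ v ∈ Om σ, ψ v with hW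
    have hinv : ∀ h : SU σ, (π h : V →L[ℂ] V) W = W := by
      intro h
      rw [hW, map_sum]
      refine Finset.sum_bij (fun v _ => h.1.1 *ᵥ v) ?_ ?_ ?_ ?_
      · intro v hv
        rw [mem_Om] at hv ⊢
        rw [h.2 v v]; exact hv
      · intro v _ w _ hvw
        have h3 := congrArg (fun z => h⁻¹.1.1 *ᵥ z) hvw
        simp only [Matrix.mulVec_mulVec, ← Matrix.SpecialLinearGroup.coe_mul, ← Subgroup.coe_mul,
          inv_mul_cancel] at h3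
        simpa using h3
      · intro v hv
        refine ⟨h⁻¹.1.1 *ᵥ v, ?_, ?_⟩
        · rw [mem_Om] at hv ⊢
          rw [h⁻¹.2 v v]; exact hv
        · rw [Matrix.mulVec_mulVec, ← Matrix.SpecialLinearGroup.coe_mul, ← Subgroup.coe_mul,
            mul_inv_cancel]
          simp
      · intro v hv
        obtain ⟨g, μ, hμ, h1⟩ := ex1 v hv
        rw [hψ g μ v hμ h1, hψ (h * g) μ (h.1.1 *ᵥ v) hμ, rep_mul_apply]
        rw [Subgroup.coe_mul, Matrix.SpecialLinearGroup.coe_mul, ← Matrix.mulVec_mulVec, h1,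
          Matrix.mulVec_smul]
    have h0 := hw W hinv
    have h1 : ∀ v ∈ Om σ, (inner ℂ W (ψ v) : ℂ) = 0 := by
      intro v hv
      obtain ⟨g, μ, hμ, h1⟩ := ex1 v hv
      rw [hψ g μ v hμ h1, ← hinv g, unitary_inner, h0]
    have h2 : (inner ℂ W W : ℂ) = 0 := by
      conv_lhs => rw [hW]
      rw [← hW, hW, inner_sum]
      rw [← hW]
      exact Finset.sum_eq_zero h1
    exact inner_self_eq_zero.1 h2
  have hspec := spectral hF ψ (‖y‖ ^ 2) hnormψ hhom hsum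
  set A : (Fin 3 → k) → V := fun u => ∑ v ∈ (Om σ).filter (fun v => hh σ u v = 0), ψ v with hA
  have hAu : ∀ u ∈ Om σ, (inner ℂ (φ u) (A u) : ℂ) =
      (((Om σ).filter (fun v => hh σ u v = 0)).card : ℂ) * inner ℂ x y := by
    intro u hu
    rw [hA]
    simp only
    rw [inner_sum, Finset.sum_congr rfl fun v hv => ex01 u hu v (Finset.mem_filter.1 hv).1
      (Finset.mem_filter.1 hv).2, Finset.sum_const, nsmul_eq_mul]
  set N : ℝ := ((Om σ).card : ℝ) with hN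
  have hN0 : 0 < N := by
    rw [hN]
    have : 0 < (Om σ).card := by
      rw [Finset.card_pos]
      refine ⟨e3 0, ?_⟩
      rw [mem_Om]
      simp [hh, e3]
    exact_mod_cast this
  have hlow : ∀ u ∈ Om σ, (((q : ℝ) ^ 2 - 1) * ((q : ℝ) ^ 2 - q)) * ‖(inner ℂ x y : ℂ)‖
      ≤ ‖x‖ * ‖A u‖ := by
    intro u hu
    have h1 := card_good hF u hu
    have h2 : ((q : ℝ) ^ 2 - 1) * ((q : ℝ) ^ 2 - q) ≤
        (((Om σ).filter (fun v => hh σ u v = 0)).card : ℝ) := by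
      have h3 : ((q ^ 4 : ℕ) : ℝ) ≤ ((((Om σ).filter (fun v => hh σ u v = 0)).card
        + (1 + (q ^ 2 - 1) * (q + 1)) : ℕ) : ℝ) := by exact_mod_cast h1
      push_cast [Nat.cast_sub (Nat.one_le_pow 2 q (by have := hF.q_gt; omega))] at h3
      nlinarith
    have h4 : ‖(inner ℂ (φ u) (A u) : ℂ)‖ ≤ ‖φ u‖ * ‖A u‖ := norm_inner_le_norm _ _
    rw [hAu u hu, norm_mul, Complex.norm_natCast, hnormφ u hu] at h4
    refine le_trans ?_ h4
    exact mul_le_mul_of_nonneg_right h2 (norm_nonneg _)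
  have hsumlow := Finset.sum_le_sum hlow
  rw [Finset.sum_const, nsmul_eq_mul, ← Finset.mul_sum] at hsumlow
  have hcs : (∑ u ∈ Om σ, ‖A u‖) ^ 2 ≤ N * ∑ u ∈ Om σ, ‖A u‖ ^ 2 :=
    sq_sum_le_card_mul_sum_sq
  have hup : ∑ u ∈ Om σ, ‖A u‖ ≤ N * (q * ((q : ℝ) ^ 2 - 1)) * ‖y‖ := by
    have h6 : (1 : ℝ) ≤ (q : ℝ) ^ 2 := by nlinarith
    have h7 : (0 : ℝ) ≤ (q : ℝ) ^ 2 - 1 := by linarith
    have h1 : (∑ u ∈ Om σ, ‖A u‖) ^ 2 ≤ (N * (q * ((q : ℝ) ^ 2 - 1)) * ‖y‖) ^ 2 := by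
      refine hcs.trans ?_
      refine (mul_le_mul_of_nonneg_left hspec hN0.le).trans (le_of_eq ?_)
      ring
    exact le_of_sq_le_sq h1 (by positivity)
  have h8 : N * ((((q : ℝ) ^ 2 - 1) * ((q : ℝ) ^ 2 - q)) * ‖(inner ℂ x y : ℂ)‖)
      ≤ ‖x‖ * (N * (q * ((q : ℝ) ^ 2 - 1)) * ‖y‖) :=
    hsumlow.trans (mul_le_mul_of_nonneg_left hup (norm_nonneg _))
  have hpos : 0 < N * (q * ((q : ℝ) ^ 2 - 1)) := by
    have h6 : (1 : ℝ) < (q : ℝ) ^ 2 := by nlinarith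
    have h7 : (0 : ℝ) < (q : ℝ) ^ 2 - 1 := by linarith
    positivity
  have h9 : (N * (q * ((q : ℝ) ^ 2 - 1))) * (((q : ℝ) - 1) * ‖(inner ℂ x y : ℂ)‖)
      ≤ (N * (q * ((q : ℝ) ^ 2 - 1))) * (‖x‖ * ‖y‖) := by
    calc _ = N * ((((q : ℝ) ^ 2 - 1) * ((q : ℝ) ^ 2 - q)) * ‖(inner ℂ x y : ℂ)‖) := by ring
      _ ≤ _ := h8
      _ = _ := by ring
  have h10 := le_of_mul_le_mul_left h9 hpos
  have h11 : 0 < (q : ℝ) - 1 := by linarith
  rw [mul_assoc, one_div, ← div_eq_inv_mul, le_div_iff₀ h11]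
  linarith

end est

theorem local_LP {k : Type} [Field k] [Fintype k] {σ : k →+* k} {q : ℕ}
    (hF : HermField k σ q) : LP (SU σ) (HH σ) (1 / ((q : ℝ) - 1)) := by
  classical
  intro V _ _ _ π a b hab x y hx hy hw
  have haa : ∀ a : Fin 3, hh σ (e3 a) (e3 a) ≠ 0 := by
    intro a; fin_cases a <;> simp [hh, e3]
  have hab' : hh σ (e3 a) (e3 b) = 0 := by
    revert hab
    fin_cases a <;> fin_cases b <;> simp [hh, e3]
  obtain ⟨g, hg, μ, ν, hμ, hν, h1, h2⟩ := trans_pair hF (e3 a) (e3 b) (haa a) (haa b) hab'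
  set g0 : SU σ := ⟨g, hg⟩ with hg0
  have key : ∀ (c d : Fin 3) (μ : k), μ ≠ 0 → g0.1.1 *ᵥ e3 c = μ • e3 d → ∀ z : V,
      (∀ h ∈ HH σ d, (π h : V →L[ℂ] V) z = z) →
      ∀ h ∈ HH σ c, (π h : V →L[ℂ] V) ((π g0⁻¹ : V →L[ℂ] V) z) = (π g0⁻¹ : V →L[ℂ] V) z := by
    intro c d μ hμ hc z hz h hh
    have h3 : g0 * h * g0⁻¹ ∈ HH σ d := by
      obtain ⟨ρ, hρ, h4⟩ := hh
      refine ⟨ρ, hρ, ?_⟩
      have h5 : g0⁻¹.1.1 *ᵥ (g0.1.1 *ᵥ e3 c) = e3 c := by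
        rw [Matrix.mulVec_mulVec, ← Matrix.SpecialLinearGroup.coe_mul, ← Subgroup.coe_mul,
          inv_mul_cancel]
        simp
      rw [hc, Matrix.mulVec_smul] at h5
      have h6 : g0⁻¹.1.1 *ᵥ e3 d = μ⁻¹ • e3 c := by
        rw [← h5, smul_smul, inv_mul_cancel₀ hμ, one_smul]
      rw [Subgroup.coe_mul, Matrix.SpecialLinearGroup.coe_mul, ← Matrix.mulVec_mulVec, h6,
        Matrix.mulVec_smul, Subgroup.coe_mul, Matrix.SpecialLinearGroup.coe_mul,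
        ← Matrix.mulVec_mulVec, h4, Matrix.mulVec_smul, hc, smul_smul, smul_smul]
      congr 1
      field_simp
    have h4 := hz _ h3
    rw [← rep_mul_apply]
    have h5 : h * g0⁻¹ = g0⁻¹ * (g0 * h * g0⁻¹) := by group
    rw [h5, rep_mul_apply, h4]
  have hmain := base_est hF π ((π g0⁻¹ : V →L[ℂ] V) x) ((π g0⁻¹ : V →L[ℂ] V) y)
    (key 0 a μ hμ h1 x hx) (key 1 b ν hν h2 y hy)
    (fun w hw' => by
      have : (inner ℂ w ((π g0⁻¹ : V →L[ℂ] V) y) : ℂ) = inner ℂ w y := by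
        conv_lhs => rw [← hw' g0⁻¹]
        exact unitary_inner _ _ _
      rw [this]
      exact hw w hw')
  rwa [unitary_inner, unitary_norm, unitary_norm] at hmain

end Pool.Agent.W332.PT
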