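import Mathlib

/-!
# A variant of Iwasawa's criterion
-/

set_option autoImplicit false

namespace Pool.Agent.W332.PT

theorem simple_of_rankone {Q X : Type*} [Group Q] [MulAction Q X] [FaithfulSMul Q X]
    [Nontrivial Q] (x : X) (U : Subgroup Q)
    (h2 : ∀ a b c d : X, a ≠ b → c ≠ d → ∃ g : Q, g • a = c ∧ g • b = d)
    (hU : ∀ h : Q, h • x = x → ∀ u ∈ U, h * u * h⁻¹ ∈ U)
    (hsolv : Group.IsSolvable U)
    (hgen : Subgroup.normalClosure (U : Set Q) = ⊤) (hperf : commutator Q = ⊤) :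
    IsSimpleGroup Q := by
  refine ⟨fun N hN => ?_⟩
  by_cases hbot : N = ⊥
  · exact Or.inl hbot
  right
  -- `N` is transitive
  obtain ⟨n, hn, hn1⟩ : ∃ n : Q, n ∈ N ∧ n ≠ 1 := by
    by_contra hcon
    push Not at hcon
    exact hbot ((Subgroup.eq_bot_iff_forall N).2 hcon)
  have hmove : ∃ y : X, n • y ≠ y := by
    by_contra hcon
    push Not at hcon
    apply hn1
    apply FaithfulSMul.eq_of_smul_eq_smul (α := X)
    intro a
    rw [hcon a, one_smul]
  obtain ⟨y, hy⟩ := hmove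
  have htrans : ∀ a b : X, a ≠ b → ∃ m ∈ N, m • a = b := by
    intro a b hab
    obtain ⟨g, hg1, hg2⟩ := h2 y (n • y) a b hy.symm hab
    refine ⟨g * n * g⁻¹, hN.conj_mem n hn g, ?_⟩
    rw [← hg1, mul_smul, mul_smul, inv_smul_smul, hg2]
  have hfac : ∀ g : Q, ∃ m ∈ N, ∃ s : Q, s • x = x ∧ g = m * s := by
    intro g
    by_cases hgx : g • x = x
    · exact ⟨1, N.one_mem, g, hgx, by simp⟩
    · obtain ⟨m, hm, hm2⟩ := htrans x (g • x) (fun h => hgx h.symm)
      refine ⟨m, hm, m⁻¹ * g, ?_, by group⟩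
      rw [mul_smul, ← hm2, inv_smul_smul]
  -- `N ⊔ U` is normal
  have hnorm : (N ⊔ U).Normal := by
    refine ⟨fun a ha g => ?_⟩
    obtain ⟨m, hm, s, hs, rfl⟩ := hfac g
    rw [Subgroup.mem_sup_of_normal_left] at ha
    obtain ⟨n', hn', u, hu, rfl⟩ := ha
    have h1 : s * (n' * u) * s⁻¹ ∈ N ⊔ U := by
      have h3 : s * (n' * u) * s⁻¹ = (s * n' * s⁻¹) * (s * u * s⁻¹) := by group
      rw [h3]
      exact Subgroup.mul_mem_sup (hN.conj_mem n' hn' s) (hU s hs u hu)
    have h4 : m * s * (n' * u) * (m * s)⁻¹ = m * (s * (n' * u) * s⁻¹) * m⁻¹ := by group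
    rw [h4]
    exact (N ⊔ U).mul_mem ((N ⊔ U).mul_mem (Subgroup.mem_sup_left hm) h1)
      ((N ⊔ U).inv_mem (Subgroup.mem_sup_left hm))
  have htop : N ⊔ U = ⊤ := by
    rw [eq_top_iff, ← hgen]
    exact Subgroup.normalClosure_le_normal (fun u hu => Subgroup.mem_sup_right hu)
  -- the quotient is solvable and perfect
  let f : U →* Q ⧸ N := (QuotientGroup.mk' N).comp U.subtype
  have hf : Function.Surjective f := by
    intro z
    obtain ⟨g, rfl⟩ := QuotientGroup.mk'_surjective N z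
    have hg : g ∈ N ⊔ U := by rw [htop]; trivial
    rw [Subgroup.mem_sup_of_normal_left] at hg
    obtain ⟨n', hn', u, hu, rfl⟩ := hg
    refine ⟨⟨u, hu⟩, ?_⟩
    show QuotientGroup.mk' N u = QuotientGroup.mk' N (n' * u)
    rw [map_mul]
    have : QuotientGroup.mk' N n' = 1 := (QuotientGroup.eq_one_iff n').2 hn'
    rw [this, one_mul]
  have hs : Group.IsSolvable (Q ⧸ N) := Group.isSolvable_of_surjective hf
  have hp : commutator (Q ⧸ N) = ⊤ := by
    have h1 : (commutator Q).map (QuotientGroup.mk' N) ≤ commutator (Q ⧸ N) := by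
      rw [commutator_def, commutator_def, Subgroup.map_commutator]
      exact Subgroup.commutator_mono le_top le_top
    rw [hperf, ← MonoidHom.range_eq_map, QuotientGroup.range_mk'] at h1
    exact eq_top_iff.2 h1
  have hsub : Subsingleton (Q ⧸ N) := by
    by_contra hcon
    rw [not_subsingleton_iff_nontrivial] at hcon
    have := Group.IsSolvable.commutator_lt_top_of_nontrivial (Q ⧸ N)
    rw [hp] at this
    exact lt_irrefl _ this
  exact Subgroup.index_eq_one.1 (by
    rw [Subgroup.index_eq_card]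
    exact Nat.card_unique)

end Pool.Agent.W332.PT
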