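import Mathlib
import Pool.Agent.W332.PT.Herm

/-!
# The special unitary group in a hyperbolic basis
-/

set_option autoImplicit false

namespace Pool.Agent.W332.PT

open Matrix

section SJ

variable {F : Type} [Field F] {σ : F →+* F}

/-- the hermitian form in a hyperbolic basis -/
def hJ (σ : F →+* F) (x y : Fin 3 → F) : F := x 0 * σ (y 2) + x 1 * σ (y 1) + x 2 * σ (y 0)

lemma hJ_add_left (x y z : Fin 3 → F) : hJ σ (x + y) z = hJ σ x z + hJ σ y z := by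
  simp only [hJ, Pi.add_apply]; ring

lemma hJ_add_right (x y z : Fin 3 → F) : hJ σ x (y + z) = hJ σ x y + hJ σ x z := by
  simp only [hJ, Pi.add_apply, map_add]; ring

lemma hJ_smul_left (c : F) (x y : Fin 3 → F) : hJ σ (c • x) y = c * hJ σ x y := by
  simp only [hJ, Pi.smul_apply, smul_eq_mul]; ring

lemma hJ_smul_right (c : F) (x y : Fin 3 → F) : hJ σ x (c • y) = σ c * hJ σ x y := by
  simp only [hJ, Pi.smul_apply, smul_eq_mul, map_mul]; ring

lemma hJ_symm (hσ : ∀ x, σ (σ x) = x) (x y : Fin 3 → F) : hJ σ y x = σ (hJ σ x y) := by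
  simp only [hJ, map_add, map_mul, hσ]; ring

variable (σ) in
/-- special unitary group, hyperbolic basis -/
def SJ : Subgroup (Matrix.SpecialLinearGroup (Fin 3) F) where
  carrier := {g | ∀ x y, hJ σ (g.1 *ᵥ x) (g.1 *ᵥ y) = hJ σ x y}
  mul_mem' := by
    intro a b ha hb x y
    rw [Matrix.SpecialLinearGroup.coe_mul, ← Matrix.mulVec_mulVec, ← Matrix.mulVec_mulVec, ha, hb]
  one_mem' := by
    intro x y
    simp
  inv_mem' := by
    intro a ha x y
    have h1 : ∀ z, a.1 *ᵥ ((a⁻¹).1 *ᵥ z) = z := by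
      intro z
      rw [Matrix.mulVec_mulVec, ← Matrix.SpecialLinearGroup.coe_mul, mul_inv_cancel]
      simp
    rw [← ha, h1, h1]

/-- root matrix -/
def uM (σ : F →+* F) (a b : F) : Matrix (Fin 3) (Fin 3) F := !![1, a, b; 0, 1, -σ a; 0, 0, 1]

/-- Weyl matrix -/
def wM : Matrix (Fin 3) (Fin 3) F := !![0, 0, 1; 0, -1, 0; 1, 0, 0]

/-- torus matrix -/
def tM (σ : F →+* F) (t : F) : Matrix (Fin 3) (Fin 3) F :=
  !![t, 0, 0; 0, σ t / t, 0; 0, 0, (σ t)⁻¹]

lemma uM_mulVec (a b : F) (x : Fin 3 → F) :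
    uM σ a b *ᵥ x = ![x 0 + a * x 1 + b * x 2, x 1 - σ a * x 2, x 2] := by
  ext i
  fin_cases i <;> simp [uM, Matrix.mulVec, dotProduct, Fin.sum_univ_three] <;> ring

lemma wM_mulVec (x : Fin 3 → F) :
    (wM : Matrix (Fin 3) (Fin 3) F) *ᵥ x = ![x 2, - x 1, x 0] := by
  ext i
  fin_cases i <;> simp [wM, Matrix.mulVec, dotProduct, Fin.sum_univ_three]

lemma tM_mulVec (t : F) (x : Fin 3 → F) :
    tM σ t *ᵥ x = ![t * x 0, σ t / t * x 1, (σ t)⁻¹ * x 2] := by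
  ext i
  fin_cases i <;> simp [tM, Matrix.mulVec, dotProduct, Fin.sum_univ_three]

lemma uM_det (a b : F) : (uM σ a b).det = 1 := by
  rw [Matrix.det_fin_three]; simp [uM]

lemma wM_det : (wM : Matrix (Fin 3) (Fin 3) F).det = 1 := by
  rw [Matrix.det_fin_three]; simp [wM]

lemma tM_det {t : F} (ht : t ≠ 0) : (tM σ t).det = 1 := by
  have hs : σ t ≠ 0 := fun h => ht ((map_eq_zero σ).1 h)
  rw [Matrix.det_fin_three]; simp [tM]
  field_simp

/-- root element -/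
def uS (hσ : ∀ x, σ (σ x) = x) (a b : F) (h : b + σ b + a * σ a = 0) : SJ σ :=
  ⟨⟨uM σ a b, uM_det a b⟩, by
    intro x y
    show hJ σ (uM σ a b *ᵥ x) (uM σ a b *ᵥ y) = _
    rw [uM_mulVec, uM_mulVec]
    simp only [hJ]
    simp [hσ]
    linear_combination (x 2 * σ (y 2)) * h⟩

/-- Weyl element -/
def wS : SJ σ :=
  ⟨⟨wM, wM_det⟩, by
    intro x y
    show hJ σ (wM *ᵥ x) (wM *ᵥ y) = _
    rw [wM_mulVec, wM_mulVec]
    simp [hJ]
    ring⟩

/-- torus element -/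
def tS (hσ : ∀ x, σ (σ x) = x) (t : F) (ht : t ≠ 0) : SJ σ :=
  ⟨⟨tM σ t, tM_det ht⟩, by
    have hs : σ t ≠ 0 := fun h => ht ((map_eq_zero σ).1 h)
    intro x y
    show hJ σ (tM σ t *ᵥ x) (tM σ t *ᵥ y) = _
    rw [tM_mulVec, tM_mulVec]
    simp [hJ, hσ]
    field_simp⟩

lemma SJ_ext {g h : SJ σ} (H : g.1.1 = h.1.1) : g = h := Subtype.ext (Subtype.ext H)

lemma uS_mul (hσ : ∀ x, σ (σ x) = x) {a b a' b' : F} (h : b + σ b + a * σ a = 0)
    (h' : b' + σ b' + a' * σ a' = 0) (h'' : (b + b' - a * σ a') + σ (b + b' - a * σ a') +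
      (a + a') * σ (a + a') = 0) :
    uS hσ a b h * uS hσ a' b' h' = uS hσ (a + a') (b + b' - a * σ a') h'' := by
  apply SJ_ext
  show uM σ a b * uM σ a' b' = uM σ (a + a') (b + b' - a * σ a')
  ext i j
  fin_cases i <;> fin_cases j <;>
    simp [uM, Matrix.mul_apply, Fin.sum_univ_three] <;> ring

lemma uS_cond (hσ : ∀ x, σ (σ x) = x) {a b a' b' : F} (h : b + σ b + a * σ a = 0)
    (h' : b' + σ b' + a' * σ a' = 0) : (b + b' - a * σ a') + σ (b + b' - a * σ a') +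
      (a + a') * σ (a + a') = 0 := by
  simp only [map_sub, map_add, map_mul, hσ]
  linear_combination h + h'

lemma uS_one (hσ : ∀ x, σ (σ x) = x) (h : (0 : F) + σ 0 + 0 * σ 0 = 0) :
    uS hσ 0 0 h = 1 := by
  apply SJ_ext
  show uM σ 0 0 = 1
  ext i j
  fin_cases i <;> fin_cases j <;> simp [uM]

lemma uS_inv (hσ : ∀ x, σ (σ x) = x) {a b : F} (h : b + σ b + a * σ a = 0)
    (h' : σ b + σ (σ b) + (-a) * σ (-a) = 0) :
    (uS hσ a b h)⁻¹ = uS hσ (-a) (σ b) h' := by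
  rw [inv_eq_iff_mul_eq_one, uS_mul hσ h h' (uS_cond hσ h h')]
  apply SJ_ext
  show uM σ (a + -a) (b + σ b - a * σ (-a)) = 1
  have e : b + σ b - a * σ (-a) = 0 := by rw [map_neg]; linear_combination h
  rw [e]
  ext i j
  fin_cases i <;> fin_cases j <;> simp [uM]

lemma wS_mul_self : (wS : SJ σ) * wS = 1 := by
  apply SJ_ext
  show wM * wM = 1
  ext i j
  fin_cases i <;> fin_cases j <;> simp [wM, Matrix.mul_apply, Fin.sum_univ_three]

lemma tS_conj (hσ : ∀ x, σ (σ x) = x) {t : F} (ht : t ≠ 0) {a b : F}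
    (h : b + σ b + a * σ a = 0)
    (h' : (t * σ t * b) + σ (t * σ t * b) + (t ^ 2 / σ t * a) * σ (t ^ 2 / σ t * a) = 0) :
    tS hσ t ht * uS hσ a b h = uS hσ (t ^ 2 / σ t * a) (t * σ t * b) h' * tS hσ t ht := by
  have hs : σ t ≠ 0 := fun h => ht ((map_eq_zero σ).1 h)
  apply SJ_ext
  show tM σ t * uM σ a b = uM σ (t ^ 2 / σ t * a) (t * σ t * b) * tM σ t
  ext i j
  fin_cases i <;> fin_cases j <;>
    simp [uM, tM, Matrix.mul_apply, Fin.sum_univ_three, hσ] <;> field_simp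

lemma tS_cond (hσ : ∀ x, σ (σ x) = x) {t : F} (ht : t ≠ 0) {a b : F}
    (h : b + σ b + a * σ a = 0) :
    (t * σ t * b) + σ (t * σ t * b) + (t ^ 2 / σ t * a) * σ (t ^ 2 / σ t * a) = 0 := by
  have hs : σ t ≠ 0 := fun h => ht ((map_eq_zero σ).1 h)
  simp only [map_mul, map_div₀, map_pow, hσ]
  field_simp
  linear_combination (t * σ t) * h

/-- the key identity producing the torus -/
lemma key_identity (hσ : ∀ x, σ (σ x) = x) {a b : F} (hb : b ≠ 0) (h : b + σ b + a * σ a = 0)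
    (h1 : (σ b)⁻¹ + σ ((σ b)⁻¹) + (a / σ b) * σ (a / σ b) = 0)
    (h2 : (σ b)⁻¹ + σ ((σ b)⁻¹) + (a / b) * σ (a / b) = 0) :
    wS * uS hσ (a / σ b) ((σ b)⁻¹) h1 * wS * uS hσ a b h * wS * uS hσ (a / b) ((σ b)⁻¹) h2
      = tS hσ b hb := by
  have hs : σ b ≠ 0 := fun h => hb ((map_eq_zero σ).1 h)
  apply SJ_ext
  show wM * uM σ (a / σ b) ((σ b)⁻¹) * wM * uM σ a b * wM * uM σ (a / b) ((σ b)⁻¹) = tM σ b
  have hsb : σ b = -b - a * σ a := by linear_combination h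
  ext i j
  fin_cases i <;> fin_cases j <;>
    simp [uM, tM, wM, Matrix.mul_apply, Fin.sum_univ_three, hσ] <;> field_simp <;>
    first | ring1 | (linear_combination h) | (linear_combination -h) | (linear_combination (σ a) * h) | (linear_combination a * h)

lemma key_cond1 (hσ : ∀ x, σ (σ x) = x) {a b : F} (hb : b ≠ 0) (h : b + σ b + a * σ a = 0) :
    (σ b)⁻¹ + σ ((σ b)⁻¹) + (a / σ b) * σ (a / σ b) = 0 := by
  have hs : σ b ≠ 0 := fun h => hb ((map_eq_zero σ).1 h)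
  simp only [map_inv₀, map_div₀, hσ]
  field_simp
  linear_combination h

lemma key_cond2 (hσ : ∀ x, σ (σ x) = x) {a b : F} (hb : b ≠ 0) (h : b + σ b + a * σ a = 0) :
    (σ b)⁻¹ + σ ((σ b)⁻¹) + (a / b) * σ (a / b) = 0 := by
  have hs : σ b ≠ 0 := fun h => hb ((map_eq_zero σ).1 h)
  simp only [map_inv₀, map_div₀, hσ]
  field_simp
  linear_combination h

end SJ

end Pool.Agent.W332.PT
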