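import Mathlib
import Pool.Agent.W332.PT.SJ
import Pool.Agent.W332.PT.Iwasawa

/-!
# The projective special unitary group of degree three: simplicity, rank one
-/

set_option autoImplicit false

namespace Pool.Agent.W332.PT

open Matrix LinearAlgebra.Projectivization

section PSU

variable {F : Type} [Field F] {σ : F →+* F}

lemma mat_ext {A B : Matrix (Fin 3) (Fin 3) F} (h : ∀ j, A *ᵥ e3 j = B *ᵥ e3 j) : A = B := by
  ext i j
  have := congrFun (h j) i
  simpa [e3] using this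

lemma act_inv (g : SJ σ) (v : Fin 3 → F) : g⁻¹.1.1 *ᵥ (g.1.1 *ᵥ v) = v := by
  rw [Matrix.mulVec_mulVec, ← Matrix.SpecialLinearGroup.coe_mul, ← Subgroup.coe_mul,
    inv_mul_cancel]
  simp

lemma act_mul (g h : SJ σ) (v : Fin 3 → F) : (g * h).1.1 *ᵥ v = g.1.1 *ᵥ (h.1.1 *ᵥ v) := by
  rw [Matrix.mulVec_mulVec, ← Matrix.SpecialLinearGroup.coe_mul, ← Subgroup.coe_mul]

variable (σ) in
/-- the root group at the isotropic line of the first basis vector -/
def US : Subgroup (SJ σ) where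
  carrier := {g | g.1.1 *ᵥ e3 0 = e3 0 ∧
    ∀ y, hJ σ y (e3 0) = 0 → ∃ c : F, g.1.1 *ᵥ y = y + c • e3 0}
  mul_mem' := by
    rintro g h ⟨g1, g2⟩ ⟨h1, h2⟩
    refine ⟨by rw [act_mul, h1, g1], fun y hy => ?_⟩
    obtain ⟨c, hc⟩ := h2 y hy
    obtain ⟨d, hd⟩ := g2 y hy
    refine ⟨d + c, ?_⟩
    rw [act_mul, hc, Matrix.mulVec_add, Matrix.mulVec_smul, g1, hd, add_smul, add_assoc]
  one_mem' := ⟨by simp, fun y _ => ⟨0, by simp⟩⟩
  inv_mem' := by
    rintro g ⟨g1, g2⟩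
    have h1 : g⁻¹.1.1 *ᵥ e3 0 = e3 0 := by
      have := act_inv g (e3 0)
      rwa [g1] at this
    refine ⟨h1, fun y hy => ?_⟩
    obtain ⟨d, hd⟩ := g2 y hy
    refine ⟨-d, ?_⟩
    have h2 := act_inv g y
    rw [hd, Matrix.mulVec_add, Matrix.mulVec_smul, h1] at h2
    rw [eq_comm, neg_smul, ← sub_eq_add_neg, sub_eq_iff_eq_add, eq_comm]
    exact h2

lemma uS_mem (hσ : ∀ x, σ (σ x) = x) {a b : F} (h : b + σ b + a * σ a = 0) :
    uS hσ a b h ∈ US σ := by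
  refine ⟨?_, fun y hy => ⟨a * y 1 + b * y 2, ?_⟩⟩
  · show uM σ a b *ᵥ e3 0 = e3 0
    rw [uM_mulVec]
    ext i; fin_cases i <;> simp [e3]
  · show uM σ a b *ᵥ y = _
    rw [uM_mulVec]
    have hy2 : y 2 = 0 := by simpa [hJ, e3] using hy
    rw [hy2]
    ext i; fin_cases i <;> simp [e3, hy2]

lemma exists_of_mem_US (hσ : ∀ x, σ (σ x) = x) {g : SJ σ} (hg : g ∈ US σ) :
    ∃ (a b : F) (h : b + σ b + a * σ a = 0), g = uS hσ a b h := by
  obtain ⟨h0, h1⟩ := hg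
  obtain ⟨a, ha⟩ := h1 (e3 1) (by simp [hJ, e3])
  set c := g.1.1 *ᵥ e3 2 with hc
  have i1 := g.2 (e3 2) (e3 0)
  have i2 := g.2 (e3 2) (e3 1)
  have i3 := g.2 (e3 2) (e3 2)
  rw [h0, ← hc] at i1
  rw [ha, ← hc] at i2
  rw [← hc] at i3
  have c2 : c 2 = 1 := by simpa [hJ, e3] using i1
  have c1 : c 1 = -σ a := by
    simp [hJ, e3, c2] at i2
    linear_combination i2
  have hcond : c 0 + σ (c 0) + a * σ a = 0 := by
    simp [hJ, e3, c2, c1, hσ] at i3
    linear_combination i3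
  refine ⟨a, c 0, hcond, ?_⟩
  apply SJ_ext
  show g.1.1 = uM σ a (c 0)
  apply mat_ext
  intro j
  rw [uM_mulVec]
  fin_cases j
  · show g.1.1 *ᵥ e3 0 = _
    rw [h0]
    ext i; fin_cases i <;> simp [e3]
  · show g.1.1 *ᵥ e3 1 = _
    rw [ha]
    ext i; fin_cases i <;> simp [e3]
  · show g.1.1 *ᵥ e3 2 = _
    rw [← hc]
    ext i; fin_cases i <;> simp [e3, c1, c2]

variable (σ) in
/-- the stabiliser of the line normalises `US` -/
lemma US_conj (g : SJ σ) {c : F} (hc : c ≠ 0) (hg : g.1.1 *ᵥ e3 0 = c • e3 0) (u : SJ σ)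
    (hu : u ∈ US σ) : g * u * g⁻¹ ∈ US σ := by
  obtain ⟨u1, u2⟩ := hu
  have h1 : g⁻¹.1.1 *ᵥ e3 0 = c⁻¹ • e3 0 := by
    have := act_inv g (e3 0)
    rw [hg, Matrix.mulVec_smul] at this
    rw [← this, smul_smul, inv_mul_cancel₀ hc, one_smul, this]
  refine ⟨?_, fun y hy => ?_⟩
  · rw [act_mul, act_mul, h1, Matrix.mulVec_smul, Matrix.mulVec_smul, u1, hg, smul_smul,
      inv_mul_cancel₀ hc, one_smul]
  · have h2 : hJ σ (g⁻¹.1.1 *ᵥ y) (e3 0) = 0 := by
      have h3 := g⁻¹.2 y (e3 0)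
      rw [h1, hJ_smul_right, hy] at h3
      refine (mul_eq_zero.1 h3).resolve_left ?_
      rw [map_inv₀]
      exact inv_ne_zero fun h => hc ((map_eq_zero σ).1 h)
    obtain ⟨d, hd⟩ := u2 _ h2
    refine ⟨d * c, ?_⟩
    rw [act_mul, act_mul, hd, Matrix.mulVec_add, Matrix.mulVec_smul, hg, smul_smul]
    congr 1
    have := act_inv g⁻¹ y
    rwa [inv_inv] at this

/-! ### solvability of the root group -/

/-- first coordinate homomorphism -/
noncomputable def USfst (hσ : ∀ x, σ (σ x) = x) : US σ →* Multiplicative F where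
  toFun g := Multiplicative.ofAdd (g.1.1.1 0 1)
  map_one' := by
    show Multiplicative.ofAdd ((1 : Matrix (Fin 3) (Fin 3) F) 0 1) = 1
    simp
  map_mul' := by
    intro g h
    obtain ⟨a, b, hab, hg⟩ := exists_of_mem_US hσ g.2
    obtain ⟨a', b', hab', hh⟩ := exists_of_mem_US hσ h.2
    have e : (g * h).1 = g.1 * h.1 := rfl
    rw [e, hg, hh, uS_mul hσ hab hab' (uS_cond hσ hab hab')]
    show Multiplicative.ofAdd (uM σ (a + a') _ 0 1) =
      Multiplicative.ofAdd (uM σ a b 0 1) * Multiplicative.ofAdd (uM σ a' b' 0 1)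
    rw [← ofAdd_add]
    simp [uM]

lemma US_solvable (hσ : ∀ x, σ (σ x) = x) : Group.IsSolvable (US σ) := by
  have hk : Group.IsSolvable (USfst hσ).ker := by
    apply Group.isSolvable_of_comm
    rintro ⟨g, hg⟩ ⟨h, hh⟩
    apply Subtype.ext
    apply Subtype.ext
    show g.1 * h.1 = h.1 * g.1
    obtain ⟨a, b, hab, hg'⟩ := exists_of_mem_US hσ g.2
    obtain ⟨a', b', hab', hh'⟩ := exists_of_mem_US hσ h.2
    have ha : a = 0 := by
      have h1 : Multiplicative.ofAdd (g.1.1.1 0 1) = 1 := hg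
      rw [hg'] at h1
      have h2 : uM σ a b 0 1 = 0 := by
        rwa [← ofAdd_zero, Equiv.apply_eq_iff_eq] at h1
      simpa [uM] using h2
    have ha' : a' = 0 := by
      have h1 : Multiplicative.ofAdd (h.1.1.1 0 1) = 1 := hh
      rw [hh'] at h1
      have h2 : uM σ a' b' 0 1 = 0 := by
        rwa [← ofAdd_zero, Equiv.apply_eq_iff_eq] at h1
      simpa [uM] using h2
    subst ha ha'
    rw [hg', hh', uS_mul hσ hab hab' (uS_cond hσ hab hab'),
      uS_mul hσ hab' hab (uS_cond hσ hab' hab)]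
    apply SJ_ext
    show uM σ _ _ = uM σ _ _
    congr 1
    simp [add_comm]
  have ht : Group.IsSolvable (Multiplicative F) := Group.isSolvable_of_comm fun a b => mul_comm a b
  exact Group.isSolvable_of_ker_le_range (USfst hσ).ker.subtype (USfst hσ)
    (by rw [Subgroup.range_subtype])

/-! ### the set of isotropic points -/

variable (σ) in
/-- isotropic points -/
def XJ : Type := {p : ℙ F (Fin 3 → F) // hJ σ p.rep p.rep = 0}

lemma iso_mk {v : Fin 3 → F} (hv : v ≠ 0) :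
    hJ σ (Projectivization.mk F v hv).rep (Projectivization.mk F v hv).rep = 0 ↔
      hJ σ v v = 0 := by
  obtain ⟨a, ha⟩ := Projectivization.exists_smul_eq_mk_rep F v hv
  rw [← ha, Units.smul_def, hJ_smul_left, hJ_smul_right]
  have h1 : σ (a : F) ≠ 0 := fun h => a.ne_zero ((map_eq_zero σ).1 h)
  constructor
  · intro h
    rcases mul_eq_zero.1 h with h | h
    · exact absurd h a.ne_zero
    · exact (mul_eq_zero.1 h).resolve_left h1
  · intro h; rw [h]; simp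

lemma SJ_smul_mk (g : SJ σ) {v : Fin 3 → F} (hv : v ≠ 0) (hv' : g.1.1 *ᵥ v ≠ 0) :
    g • (Projectivization.mk F v hv) = Projectivization.mk F (g.1.1 *ᵥ v) hv' := rfl

lemma act_ne_zero (g : SJ σ) {v : Fin 3 → F} (hv : v ≠ 0) : g.1.1 *ᵥ v ≠ 0 := by
  intro h
  apply hv
  rw [← act_inv g v, h, Matrix.mulVec_zero]

instance : MulAction (SJ σ) (XJ σ) where
  smul g p := ⟨g • p.1, by
    obtain ⟨p, hp⟩ := p
    induction p using Projectivization.ind with
    | h v hv =>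
      rw [iso_mk] at hp
      show hJ σ (g • Projectivization.mk F v hv).rep (g • Projectivization.mk F v hv).rep = 0
      rw [SJ_smul_mk g hv (act_ne_zero g hv), iso_mk, g.2, hp]⟩
  one_smul p := Subtype.ext (one_smul _ _)
  mul_smul g h p := Subtype.ext (mul_smul _ _ _)

/-- the point of an isotropic vector -/
def pt (v : Fin 3 → F) (hv : v ≠ 0) (hi : hJ σ v v = 0) : XJ σ :=
  ⟨Projectivization.mk F v hv, (iso_mk hv).2 hi⟩

lemma smul_pt (g : SJ σ) (v : Fin 3 → F) (hv : v ≠ 0) (hi : hJ σ v v = 0) :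
    g • pt v hv hi = pt (g.1.1 *ᵥ v) (act_ne_zero g hv) (by rw [g.2, hi]) := rfl

lemma pt_eq_iff {v w : Fin 3 → F} (hv : v ≠ 0) (hi : hJ σ v v = 0) (hw : w ≠ 0)
    (hi' : hJ σ w w = 0) : pt v hv hi = pt w hw hi' ↔ ∃ c : F, c • w = v := by
  rw [← Projectivization.mk_eq_mk_iff' F v w hv hw]
  exact Subtype.ext_iff

lemma exists_pt (p : XJ σ) : ∃ v hv hi, p = pt v hv hi := by
  obtain ⟨p, hp⟩ := p
  induction p using Projectivization.ind with
  | h v hv => exact ⟨v, hv, (iso_mk hv).1 hp, rfl⟩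

lemma e3_ne (i : Fin 3) : (e3 i : Fin 3 → F) ≠ 0 := by
  intro h
  have := congrFun h i
  simp [e3] at this

variable (σ) in
/-- the base point -/
def x0 : XJ σ := pt (e3 0) (e3_ne 0) (by simp [hJ, e3])

variable (σ) in
/-- the opposite point -/
def x2 : XJ σ := pt (e3 2) (e3_ne 2) (by simp [hJ, e3])

lemma x0_ne_x2 : x0 σ ≠ x2 σ := by
  intro h
  rw [x0, x2, pt_eq_iff] at h
  obtain ⟨c, hc⟩ := h
  have := congrFun hc 0
  simp [e3] at this

lemma wS_x0 : (wS : SJ σ) • x0 σ = x2 σ := by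
  rw [x0, smul_pt, x2, pt_eq_iff]
  refine ⟨1, ?_⟩
  show _ = wM *ᵥ e3 0
  rw [wM_mulVec]
  ext i; fin_cases i <;> simp [e3]

lemma wS_x2 : (wS : SJ σ) • x2 σ = x0 σ := by
  rw [← wS_x0, ← mul_smul, wS_mul_self, one_smul]

lemma US_x0 {u : SJ σ} (hu : u ∈ US σ) : u • x0 σ = x0 σ := by
  rw [x0, smul_pt, pt_eq_iff]
  exact ⟨1, by rw [hu.1, one_smul]⟩

lemma fix_x0 {g : SJ σ} (h : g • x0 σ = x0 σ) : ∃ c : F, c ≠ 0 ∧ g.1.1 *ᵥ e3 0 = c • e3 0 := by
  rw [x0, smul_pt, pt_eq_iff] at h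
  obtain ⟨c, hc⟩ := h
  refine ⟨c, ?_, hc.symm⟩
  rintro rfl
  rw [zero_smul] at hc
  exact act_ne_zero g (e3_ne 0) hc.symm

lemma fix_x2 {g : SJ σ} (h : g • x2 σ = x2 σ) : ∃ c : F, c ≠ 0 ∧ g.1.1 *ᵥ e3 2 = c • e3 2 := by
  rw [x2, smul_pt, pt_eq_iff] at h
  obtain ⟨c, hc⟩ := h
  refine ⟨c, ?_, hc.symm⟩
  rintro rfl
  rw [zero_smul] at hc
  exact act_ne_zero g (e3_ne 2) hc.symm

/-- the points other than `x0` -/
lemma exists_U (hσ : ∀ x, σ (σ x) = x) (p : XJ σ) (hp : p ≠ x0 σ) :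
    ∃ u ∈ US σ, u • x2 σ = p := by
  obtain ⟨v, hv, hi, rfl⟩ := exists_pt p
  have hv2 : v 2 ≠ 0 := by
    intro h
    apply hp
    have h1 : v 1 = 0 := by
      have h3 : v 1 * σ (v 1) = 0 := by
        have hi' := hi
        simp only [hJ, h, map_zero, mul_zero, zero_mul, zero_add, add_zero] at hi'
        exact hi'
      rcases mul_eq_zero.1 h3 with h4 | h4
      · exact h4
      · exact (map_eq_zero σ).1 h4
    rw [x0, pt_eq_iff]
    refine ⟨v 0, ?_⟩
    ext i; fin_cases i <;> simp [e3, h, h1]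
  set b := v 0 / v 2 with hb
  set c := v 1 / v 2 with hc
  have hs : σ (v 2) ≠ 0 := fun h => hv2 ((map_eq_zero σ).1 h)
  have hbc : b + σ b + (-σ c) * σ (-σ c) = 0 := by
    rw [hb, hc]
    simp only [map_div₀, map_neg, hσ]
    field_simp
    unfold hJ at hi
    linear_combination hi
  refine ⟨uS hσ (-σ c) b hbc, uS_mem hσ hbc, ?_⟩
  rw [x2, smul_pt, pt_eq_iff]
  refine ⟨(v 2)⁻¹, ?_⟩
  show _ = uM σ (-σ c) b *ᵥ e3 2
  rw [uM_mulVec]
  ext i; fin_cases i <;> simp [e3, hσ, hb, hc] <;> field_simp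

lemma US_regular (hσ : ∀ x, σ (σ x) = x) {u : SJ σ} (hu : u ∈ US σ) (h : u • x2 σ = x2 σ) :
    u = 1 := by
  obtain ⟨a, b, hab, rfl⟩ := exists_of_mem_US hσ hu
  obtain ⟨c, _, hc⟩ := fix_x2 h
  have h1 : uM σ a b *ᵥ e3 2 = c • e3 2 := hc
  rw [uM_mulVec] at h1
  have i0 := congrFun h1 0
  have i1 := congrFun h1 1
  simp [e3] at i0 i1
  subst i0
  subst i1
  exact uS_one hσ _

lemma fix_both (hσ : ∀ x, σ (σ x) = x) {g : SJ σ} (h0 : g • x0 σ = x0 σ)
    (h2 : g • x2 σ = x2 σ) : ∃ t, ∃ ht : t ≠ 0, g = tS hσ t ht := by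
  obtain ⟨t, ht, ht'⟩ := fix_x0 h0
  obtain ⟨r, hr, hr'⟩ := fix_x2 h2
  have hst : σ t ≠ 0 := fun h => ht ((map_eq_zero σ).1 h)
  have hsr : σ r ≠ 0 := fun h => hr ((map_eq_zero σ).1 h)
  have i1 := g.2 (e3 0) (e3 2)
  rw [ht', hr', hJ_smul_left, hJ_smul_right] at i1
  have hJ02 : hJ σ (e3 0) (e3 2) = 1 := by simp [hJ, e3]
  rw [hJ02, mul_one] at i1
  set c := g.1.1 *ᵥ e3 1 with hc
  have i2 := g.2 (e3 1) (e3 0)
  have i3 := g.2 (e3 1) (e3 2)
  rw [← hc, ht', hJ_smul_right] at i2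
  rw [← hc, hr', hJ_smul_right] at i3
  have c2 : c 2 = 0 := by
    have : σ t * c 2 = 0 := by simpa [hJ, e3] using i2
    exact (mul_eq_zero.1 this).resolve_left hst
  have c0 : c 0 = 0 := by
    have : σ r * c 0 = 0 := by simpa [hJ, e3] using i3
    exact (mul_eq_zero.1 this).resolve_left hsr
  have hg : g.1.1 = !![t, 0, 0; 0, c 1, 0; 0, 0, r] := by
    apply mat_ext
    intro j
    fin_cases j
    · show g.1.1 *ᵥ e3 0 = _
      rw [ht']
      ext i; fin_cases i <;> simp [e3]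
    · show g.1.1 *ᵥ e3 1 = _
      rw [← hc]
      ext i; fin_cases i <;> simp [e3, c0, c2]
    · show g.1.1 *ᵥ e3 2 = _
      rw [hr']
      ext i; fin_cases i <;> simp [e3]
  have hdet : g.1.1.det = 1 := g.1.2
  rw [hg, Matrix.det_fin_three] at hdet
  simp at hdet
  refine ⟨t, ht, ?_⟩
  apply SJ_ext
  show g.1.1 = tM σ t
  have hr2 : r = (σ t)⁻¹ := by
    have : σ (t * σ r) = 1 := by rw [i1, map_one]
    rw [map_mul, hσ] at this
    field_simp
    linear_combination this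
  have hc1 : c 1 = σ t / t := by
    rw [hr2] at hdet
    field_simp at hdet ⊢
    linear_combination hdet
  rw [hg, hr2, hc1]
  rfl

/-- transitivity on pairs of a subgroup containing `US` and `wS` -/
lemma two_trans_aux (hσ : ∀ x, σ (σ x) = x) (N : Subgroup (SJ σ)) (hU : US σ ≤ N)
    (hw : wS ∈ N) (a b : XJ σ) (hab : a ≠ b) : ∃ n ∈ N, n • x0 σ = a ∧ n • x2 σ = b := by
  have h1 : ∃ n ∈ N, n • x0 σ = a := by
    by_cases ha : a = x0 σ
    · exact ⟨1, N.one_mem, by rw [ha, one_smul]⟩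
    · obtain ⟨u, hu, hu'⟩ := exists_U hσ a ha
      exact ⟨u * wS, N.mul_mem (hU hu) hw, by rw [mul_smul, wS_x0, hu']⟩
  obtain ⟨n, hn, hna⟩ := h1
  have h2 : n⁻¹ • b ≠ x0 σ := by
    intro h
    apply hab
    rw [← hna, ← h, smul_inv_smul]
  obtain ⟨u, hu, hu'⟩ := exists_U hσ _ h2
  refine ⟨n * u, N.mul_mem hn (hU hu), ?_, ?_⟩
  · rw [mul_smul, US_x0 hu, hna]
  · rw [mul_smul, hu', smul_inv_smul]

lemma two_trans (hσ : ∀ x, σ (σ x) = x) (a b c d : XJ σ) (hab : a ≠ b) (hcd : c ≠ d) :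
    ∃ g : SJ σ, g • a = c ∧ g • b = d := by
  obtain ⟨n, _, h1, h2⟩ := two_trans_aux hσ ⊤ le_top (Subgroup.mem_top _) a b hab
  obtain ⟨m, _, h3, h4⟩ := two_trans_aux hσ ⊤ le_top (Subgroup.mem_top _) c d hcd
  refine ⟨m * n⁻¹, ?_, ?_⟩
  · rw [mul_smul, ← h1, inv_smul_smul, h3]
  · rw [mul_smul, ← h2, inv_smul_smul, h4]

/-- norms are surjective -/
def NormSurj (σ : F →+* F) : Prop := ∀ t : F, σ t = t → ∃ x, x * σ x = t

lemma top_of (hσ : ∀ x, σ (σ x) = x) (hN : NormSurj σ) (N : Subgroup (SJ σ)) (hU : US σ ≤ N)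
    (hw : wS ∈ N) : N = ⊤ := by
  rw [eq_top_iff]
  intro g _
  have hne : g • x0 σ ≠ g • x2 σ := by
    intro h
    exact x0_ne_x2 (MulAction.injective g h)
  obtain ⟨n, hn, h0, h2⟩ := two_trans_aux hσ N hU hw _ _ hne
  obtain ⟨t, ht, hg⟩ := fix_both hσ (g := n⁻¹ * g)
    (by rw [mul_smul, ← h0, inv_smul_smul]) (by rw [mul_smul, ← h2, inv_smul_smul])
  have htN : tS hσ t ht ∈ N := by
    obtain ⟨a, ha⟩ := hN (-(t + σ t)) (by simp only [map_neg, map_add, hσ]; ring)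
    have hc : t + σ t + a * σ a = 0 := by rw [ha]; ring
    rw [← key_identity hσ ht hc (key_cond1 hσ ht hc) (key_cond2 hσ ht hc)]
    exact N.mul_mem (N.mul_mem (N.mul_mem (N.mul_mem (N.mul_mem hw (hU (uS_mem hσ _))) hw)
      (hU (uS_mem hσ _))) hw) (hU (uS_mem hσ _))
  have : g = n * (n⁻¹ * g) := by group
  rw [this, hg]
  exact N.mul_mem hn htN

lemma tS_one (hσ : ∀ x, σ (σ x) = x) : tS hσ (1 : F) one_ne_zero = 1 := by
  apply SJ_ext
  show tM σ 1 = 1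
  ext i j
  fin_cases i <;> fin_cases j <;> simp [tM]

lemma wS_mem_of_normal (hσ : ∀ x, σ (σ x) = x) (hN : NormSurj σ) (N : Subgroup (SJ σ))
    [hn : N.Normal] (hU : US σ ≤ N) : (wS : SJ σ) ∈ N := by
  obtain ⟨a, ha⟩ := hN (-(1 + σ 1)) (by simp)
  have hc : 1 + σ 1 + a * σ a = 0 := by rw [ha]; ring
  have key := key_identity hσ one_ne_zero hc (key_cond1 hσ one_ne_zero hc)
    (key_cond2 hσ one_ne_zero hc)
  rw [tS_one] at key
  set u1 := uS hσ (a / σ 1) ((σ 1)⁻¹) (key_cond1 hσ one_ne_zero hc) with hu1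
  set u2 := uS hσ a 1 hc with hu2
  set u3 := uS hσ (a / 1) ((σ 1)⁻¹) (key_cond2 hσ one_ne_zero hc) with hu3
  have h1 : (wS : SJ σ) * (u1 * (wS * u2 * wS⁻¹) * u3) = 1 := by
    have hw : (wS : SJ σ)⁻¹ = wS := inv_eq_of_mul_eq_one_right wS_mul_self
    rw [hw, ← key]
    group
  have h2 : (wS : SJ σ) = (u1 * (wS * u2 * wS⁻¹) * u3)⁻¹ := eq_inv_of_mul_eq_one_left h1
  rw [h2]
  apply N.inv_mem
  exact N.mul_mem (N.mul_mem (hU (uS_mem hσ _)) (hn.conj_mem _ (hU (uS_mem hσ _)) _))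
    (hU (uS_mem hσ _))

lemma top_of_normal (hσ : ∀ x, σ (σ x) = x) (hN : NormSurj σ) (N : Subgroup (SJ σ))
    [hn : N.Normal] (hU : US σ ≤ N) : N = ⊤ :=
  top_of hσ hN N hU (wS_mem_of_normal hσ hN N hU)

/-- a subgroup whose `US` part surjects onto the first coordinate contains `US` -/
lemma US_le_of_fst (hσ : ∀ x, σ (σ x) = x) (h2 : (2 : F) ≠ 0) (M : Subgroup (SJ σ))
    (h : ∀ a : F, ∃ (b : F) (hb : b + σ b + a * σ a = 0), uS hσ a b hb ∈ M) : US σ ≤ M := by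
  -- central part
  have hz : ∀ (c : F) (hc : c + σ c + 0 * σ 0 = 0), uS hσ 0 c hc ∈ M := by
    intro c hc
    obtain ⟨b, hb, hbM⟩ := h 1
    obtain ⟨b', hb', hbM'⟩ := h (c / 2)
    have hcc : σ c = -c := by linear_combination hc
    have e : uS hσ 0 c hc * (uS hσ (c / 2) b' hb' * uS hσ 1 b hb) =
        uS hσ 1 b hb * uS hσ (c / 2) b' hb' := by
      rw [uS_mul hσ hb' hb (uS_cond hσ hb' hb), uS_mul hσ hb hb' (uS_cond hσ hb hb'),
        uS_mul hσ hc (uS_cond hσ hb' hb) (uS_cond hσ hc (uS_cond hσ hb' hb))]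
      apply SJ_ext
      show uM σ _ _ = uM σ _ _
      congr 1
      · ring
      · have h3 : σ (c / 2) = -(c / 2) := by
          rw [map_div₀, hcc, map_ofNat]; ring
        rw [h3, map_one]
        field_simp
        ring
    have e2 : uS hσ 0 c hc = uS hσ 1 b hb * uS hσ (c / 2) b' hb' *
        (uS hσ (c / 2) b' hb' * uS hσ 1 b hb)⁻¹ := by
      rw [← e]; group
    rw [e2]
    exact M.mul_mem (M.mul_mem hbM hbM') (M.inv_mem (M.mul_mem hbM' hbM))
  intro g hg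
  obtain ⟨a, b, hab, rfl⟩ := exists_of_mem_US hσ hg
  obtain ⟨b', hb', hbM'⟩ := h a
  have hc : (b - b') + σ (b - b') + 0 * σ 0 = 0 := by
    rw [map_sub]; simp; linear_combination hab - hb'
  have e : uS hσ a b hab = uS hσ 0 (b - b') hc * uS hσ a b' hb' := by
    rw [uS_mul hσ hc hb' (uS_cond hσ hc hb')]
    apply SJ_ext
    show uM σ _ _ = uM σ _ _
    congr 1
    · ring
    · ring
  rw [e]
  exact M.mul_mem (hz _ _) hbM'

lemma US_le_commutator (hσ : ∀ x, σ (σ x) = x) (h2 : (2 : F) ≠ 0) :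
    US σ ≤ commutator (SJ σ) := by
  apply US_le_of_fst hσ h2
  intro a
  have hb : (-(a * σ a) / 2) + σ (-(a * σ a) / 2) + a * σ a = 0 := by
    rw [map_div₀, map_neg, map_mul, hσ, map_ofNat]
    field_simp
    ring
  set b := -(a * σ a) / 2 with hbdef
  have hc := tS_cond hσ h2 hb
  have hi : σ b + σ (σ b) + (-a) * σ (-a) = 0 := by
    rw [hσ, map_neg]; linear_combination hb
  have e := tS_conj hσ h2 hb hc
  have hx : tS hσ 2 h2 * uS hσ a b hb * (tS hσ 2 h2)⁻¹ * (uS hσ a b hb)⁻¹ ∈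
      commutator (SJ σ) := by
    rw [commutator_def]
    exact Subgroup.commutator_mem_commutator (Subgroup.mem_top _) (Subgroup.mem_top _)
  rw [e, mul_assoc (uS hσ _ _ hc), mul_inv_cancel, mul_one, uS_inv hσ hb hi,
    uS_mul hσ hc hi (uS_cond hσ hc hi)] at hx
  have ha : (2 : F) ^ 2 / σ 2 * a + -a = a := by
    rw [map_ofNat]
    field_simp
    ring
  refine ⟨2 * σ 2 * b + σ b - 2 ^ 2 / σ 2 * a * σ (-a), ?_, ?_⟩
  · have := uS_cond hσ hc hi
    rw [ha] at this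
    exact this
  · convert hx using 2
    exact ha.symm

lemma SJ_perfect (hσ : ∀ x, σ (σ x) = x) (hN : NormSurj σ) (h2 : (2 : F) ≠ 0) :
    commutator (SJ σ) = ⊤ :=
  top_of_normal hσ hN _ (US_le_commutator hσ h2)

/-! ### the simple quotient -/

variable (σ) in
/-- the projective special unitary group -/
abbrev PSU : Subgroup (Equiv.Perm (XJ σ)) := (MulAction.toPermHom (SJ σ) (XJ σ)).range

variable (σ) in
/-- the projection -/
noncomputable def toPSU : SJ σ →* PSU σ := (MulAction.toPermHom (SJ σ) (XJ σ)).rangeRestrict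

lemma toPSU_surj : Function.Surjective (toPSU σ) := MonoidHom.rangeRestrict_surjective _

lemma toPSU_apply (g : SJ σ) (p : XJ σ) : (toPSU σ g).1 p = g • p := rfl

lemma toPSU_smul (g : SJ σ) (p : XJ σ) : (toPSU σ g) • p = g • p := rfl

lemma toPSU_US_inj (hσ : ∀ x, σ (σ x) = x) {u v : SJ σ} (hu : u ∈ US σ) (hv : v ∈ US σ)
    (h : toPSU σ u = toPSU σ v) : u = v := by
  have h1 : u • x2 σ = v • x2 σ := by rw [← toPSU_smul, h, toPSU_smul]
  have h2 : (v⁻¹ * u) • x2 σ = x2 σ := by rw [mul_smul, h1, inv_smul_smul]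
  have h3 := US_regular hσ ((US σ).mul_mem ((US σ).inv_mem hv) hu) h2
  rw [inv_mul_eq_one] at h3
  exact h3.symm

lemma PSU_nontrivial (hσ : ∀ x, σ (σ x) = x) : Nontrivial (PSU σ) := by
  refine ⟨⟨toPSU σ wS, 1, ?_⟩⟩
  intro h
  have h1 : toPSU σ wS • x0 σ = x0 σ := by rw [h, one_smul]
  rw [toPSU_smul, wS_x0] at h1
  exact x0_ne_x2 h1.symm

lemma PSU_simple (hσ : ∀ x, σ (σ x) = x) (hN : NormSurj σ) (h2 : (2 : F) ≠ 0) :
    IsSimpleGroup (PSU σ) := by
  haveI := PSU_nontrivial hσ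
  apply simple_of_rankone (X := XJ σ) (x0 σ) ((US σ).map (toPSU σ))
  · intro a b c d hab hcd
    obtain ⟨g, h1, h2⟩ := two_trans hσ a b c d hab hcd
    exact ⟨toPSU σ g, h1, h2⟩
  · intro h hh u hu
    obtain ⟨g, rfl⟩ := toPSU_surj h
    obtain ⟨v, hv, rfl⟩ := hu
    obtain ⟨c, hc, hc'⟩ := fix_x0 (g := g) hh
    exact ⟨g * v * g⁻¹, US_conj σ g hc hc' v hv, by simp⟩
  · haveI := US_solvable (σ := σ) hσ
    exact Group.isSolvable_of_surjective (f := (toPSU σ).subgroupMap (US σ))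
      (MonoidHom.subgroupMap_surjective _ _)
  · have h3 : (Subgroup.normalClosure (((US σ).map (toPSU σ) : Subgroup (PSU σ)) :
        Set (PSU σ))).comap (toPSU σ) = ⊤ := by
      apply top_of_normal hσ hN
      intro u hu
      exact Subgroup.subset_normalClosure ⟨u, hu, rfl⟩
    rw [eq_top_iff]
    intro x _
    obtain ⟨g, rfl⟩ := toPSU_surj x
    have : g ∈ (Subgroup.normalClosure (((US σ).map (toPSU σ) : Subgroup (PSU σ)) :
        Set (PSU σ))).comap (toPSU σ) := by rw [h3]; trivial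
    exact this
  · rw [eq_top_iff]
    intro x _
    obtain ⟨g, rfl⟩ := toPSU_surj x
    have h3 : g ∈ commutator (SJ σ) := by rw [SJ_perfect hσ hN h2]; trivial
    have h4 : (commutator (SJ σ)).map (toPSU σ) ≤ commutator (PSU σ) := by
      rw [commutator_def, commutator_def, Subgroup.map_commutator]
      exact Subgroup.commutator_mono le_top le_top
    exact h4 ⟨g, h3, rfl⟩

end PSU

end Pool.Agent.W332.PT
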