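import Mathlib
import Pool.Agent.W332.PT.PSU
import Pool.Agent.W332.PT.Local

/-!
# Three embeddings of a small unitary group in a large one
-/

set_option autoImplicit false

namespace Pool.Agent.W332.PT

open Matrix

section conj

variable {F : Type} [Field F] {σ : F →+* F}

/-- from standard to hyperbolic coordinates -/
def Am (σ : F →+* F) (θ : F) : Matrix (Fin 3) (Fin 3) F :=
  !![1/2, 0, -σ θ/2; 0, 1, 0; 1, 0, σ θ]

/-- from hyperbolic to standard coordinates -/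
def Cm (θ : F) : Matrix (Fin 3) (Fin 3) F := !![1, 0, 1/2; 0, 1, 0; θ, 0, -θ/2]

lemma Am_mul_Cm (h2 : (2 : F) ≠ 0) {θ : F} (hθ : θ * σ θ = -1) : Am σ θ * Cm θ = 1 := by
  ext i j
  fin_cases i <;> fin_cases j <;>
    simp [Am, Cm, Matrix.mul_apply, Fin.sum_univ_three] <;> field_simp <;>
    first | ring1 | (linear_combination hθ) | (linear_combination -hθ)

lemma Cm_mul_Am (h2 : (2 : F) ≠ 0) {θ : F} (hθ : θ * σ θ = -1) : Cm θ * Am σ θ = 1 :=
  mul_eq_one_comm.1 (Am_mul_Cm h2 hθ)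

lemma Am_mulVec (θ : F) (x : Fin 3 → F) :
    Am σ θ *ᵥ x = ![1/2 * x 0 - σ θ/2 * x 2, x 1, x 0 + σ θ * x 2] := by
  ext i
  fin_cases i <;> simp [Am, Matrix.mulVec, dotProduct, Fin.sum_univ_three] ; ring

lemma hJ_Am (hσ : ∀ x, σ (σ x) = x) (h2 : (2 : F) ≠ 0) {θ : F} (hθ : θ * σ θ = -1)
    (x y : Fin 3 → F) : hJ σ (Am σ θ *ᵥ x) (Am σ θ *ᵥ y) = hh σ x y := by
  rw [Am_mulVec, Am_mulVec]
  have e2 : σ 2 = 2 := map_ofNat σ 2
  simp [hJ, hh, hσ, e2]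
  field_simp
  linear_combination (-2 * (x 2 * σ (y 2))) * hθ

lemma hh_Cm (hσ : ∀ x, σ (σ x) = x) (h2 : (2 : F) ≠ 0) {θ : F} (hθ : θ * σ θ = -1)
    (x y : Fin 3 → F) : hh σ (Cm θ *ᵥ x) (Cm θ *ᵥ y) = hJ σ x y := by
  rw [← hJ_Am hσ h2 hθ, Matrix.mulVec_mulVec, Matrix.mulVec_mulVec, Am_mul_Cm h2 hθ]
  simp

/-- change of coordinates as a homomorphism -/
def conjHom (hσ : ∀ x, σ (σ x) = x) (h2 : (2 : F) ≠ 0) {θ : F} (hθ : θ * σ θ = -1) :
    SU σ →* SJ σ where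
  toFun g := ⟨⟨Am σ θ * g.1.1 * Cm θ, by
    have h1 : (g.1.1 : Matrix (Fin 3) (Fin 3) F).det = 1 := g.1.2
    rw [Matrix.det_mul, Matrix.det_mul, h1, mul_one, ← Matrix.det_mul, Am_mul_Cm h2 hθ,
      Matrix.det_one]⟩, by
    intro x y
    show hJ σ ((Am σ θ * g.1.1 * Cm θ) *ᵥ x) ((Am σ θ * g.1.1 * Cm θ) *ᵥ y) = _
    rw [← Matrix.mulVec_mulVec, ← Matrix.mulVec_mulVec, ← Matrix.mulVec_mulVec,
      ← Matrix.mulVec_mulVec, hJ_Am hσ h2 hθ, g.2, hh_Cm hσ h2 hθ]⟩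
  map_one' := by
    apply SJ_ext
    show Am σ θ * 1 * Cm θ = 1
    rw [mul_one, Am_mul_Cm h2 hθ]
  map_mul' := by
    intro g h
    apply SJ_ext
    show Am σ θ * (g.1.1 * h.1.1) * Cm θ = (Am σ θ * g.1.1 * Cm θ) * (Am σ θ * h.1.1 * Cm θ)
    have : (Am σ θ * g.1.1 * Cm θ) * (Am σ θ * h.1.1 * Cm θ)
        = Am σ θ * g.1.1 * (Cm θ * Am σ θ) * h.1.1 * Cm θ := by
      simp only [mul_assoc]
    rw [this, Cm_mul_Am h2 hθ, mul_one]
    simp only [mul_assoc]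

lemma conjHom_val (hσ : ∀ x, σ (σ x) = x) (h2 : (2 : F) ≠ 0) {θ : F} (hθ : θ * σ θ = -1)
    (g : SU σ) : (conjHom hσ h2 hθ g).1.1 = Am σ θ * g.1.1 * Cm θ := rfl

/-- the inverse change of coordinates of an element -/
lemma exists_preimage (hσ : ∀ x, σ (σ x) = x) (h2 : (2 : F) ≠ 0) {θ : F}
    (hθ : θ * σ θ = -1) (g : SJ σ) : ∃ g' : SU σ, g'.1.1 = Cm θ * g.1.1 * Am σ θ := by
  refine ⟨⟨⟨Cm θ * g.1.1 * Am σ θ, ?_⟩, ?_⟩, rfl⟩
  · have h1 : (g.1.1 : Matrix (Fin 3) (Fin 3) F).det = 1 := g.1.2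
    rw [Matrix.det_mul, Matrix.det_mul, h1, mul_one, ← Matrix.det_mul, Cm_mul_Am h2 hθ,
      Matrix.det_one]
  · intro x y
    show hh σ ((Cm θ * g.1.1 * Am σ θ) *ᵥ x) ((Cm θ * g.1.1 * Am σ θ) *ᵥ y) = _
    rw [← Matrix.mulVec_mulVec, ← Matrix.mulVec_mulVec, ← Matrix.mulVec_mulVec,
      ← Matrix.mulVec_mulVec, hh_Cm hσ h2 hθ, g.2, hJ_Am hσ h2 hθ]

end conj

section tw

variable {k F : Type} [Field k] [Field F] [Algebra k F] {σk : k →+* k} {σF : F →+* F}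

/-- twisted matrix -/
def twM (t : Fin 3 → F) (g : Matrix (Fin 3) (Fin 3) k) : Matrix (Fin 3) (Fin 3) F :=
  Matrix.of fun r s => t r * (t s)⁻¹ * algebraMap k F (g r s)

lemma twM_mul {t : Fin 3 → F} (ht : ∀ r, t r ≠ 0) (g h : Matrix (Fin 3) (Fin 3) k) :
    twM t (g * h) = twM t g * twM t h := by
  ext r s
  simp only [twM, Matrix.of_apply, Matrix.mul_apply, map_sum, map_mul, Finset.mul_sum]
  refine Finset.sum_congr rfl fun m _ => ?_
  have := ht m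
  field_simp

lemma twM_one {t : Fin 3 → F} (ht : ∀ r, t r ≠ 0) :
    twM t (1 : Matrix (Fin 3) (Fin 3) k) = 1 := by
  ext r s
  simp only [twM, Matrix.of_apply]
  by_cases h : r = s
  · subst h
    rw [mul_inv_cancel₀ (ht r)]; simp
  · simp [h]

lemma twM_det {t : Fin 3 → F} (ht : ∀ r, t r ≠ 0) (g : Matrix (Fin 3) (Fin 3) k)
    (hg : g.det = 1) : (twM t g).det = 1 := by
  have h0 := ht 0
  have h1 := ht 1
  have h2 := ht 2
  have e : (twM t g).det = algebraMap k F g.det := by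
    rw [Matrix.det_fin_three, Matrix.det_fin_three]
    simp only [twM, Matrix.of_apply, map_sub, map_add, map_mul]
    field_simp
  rw [e, hg, map_one]

lemma hh_twM (hc : ∀ x, σF (algebraMap k F x) = algebraMap k F (σk x)) {t : Fin 3 → F}
    (ht : ∀ r, t r * σF (t r) = 1) (g : Matrix (Fin 3) (Fin 3) k) (s s' : Fin 3) :
    hh σF (twM t g *ᵥ e3 s) (twM t g *ᵥ e3 s') =
      (t s)⁻¹ * (σF (t s'))⁻¹ * algebraMap k F (hh σk (g *ᵥ e3 s) (g *ᵥ e3 s')) := by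
  have h0 := ht 0
  have h1 := ht 1
  have h2 := ht 2
  have e : ∀ (r : Fin 3) (s : Fin 3), (twM t g *ᵥ e3 s) r = t r * (t s)⁻¹ * algebraMap k F (g r s) := by
    intro r s
    simp [e3, twM]
  have e' : ∀ (r : Fin 3) (s : Fin 3), (g *ᵥ e3 s) r = g r s := by
    intro r s
    simp [e3]
  simp only [hh, e, e', map_add, map_mul, map_inv₀, hc]
  linear_combination ((t s)⁻¹ * (σF (t s'))⁻¹ * algebraMap k F (g 0 s) * algebraMap k F (σk (g 0 s'))) * h0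
    + ((t s)⁻¹ * (σF (t s'))⁻¹ * algebraMap k F (g 1 s) * algebraMap k F (σk (g 1 s'))) * h1
    + ((t s)⁻¹ * (σF (t s'))⁻¹ * algebraMap k F (g 2 s) * algebraMap k F (σk (g 2 s'))) * h2

lemma mulVec_e3 (M : Matrix (Fin 3) (Fin 3) F) (x : Fin 3 → F) :
    M *ᵥ x = x 0 • (M *ᵥ e3 0) + x 1 • (M *ᵥ e3 1) + x 2 • (M *ᵥ e3 2) := by
  rw [← Matrix.mulVec_smul, ← Matrix.mulVec_smul, ← Matrix.mulVec_smul, ← Matrix.mulVec_add,
    ← Matrix.mulVec_add]
  congr 1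
  ext i; fin_cases i <;> simp [e3]

lemma hh_e3 (s s' : Fin 3) : hh σk (e3 s) (e3 s') = if s = s' then 1 else 0 := by
  fin_cases s <;> fin_cases s' <;> simp [hh, e3]

/-- the twisted embedding -/
def twHom (hc : ∀ x, σF (algebraMap k F x) = algebraMap k F (σk x)) (t : Fin 3 → F)
    (ht : ∀ r, t r * σF (t r) = 1) : SU σk →* SU σF where
  toFun g := ⟨⟨twM t g.1.1, twM_det (fun r h => by
      have := ht r; rw [h, zero_mul] at this; exact zero_ne_one this) _ g.1.2⟩, by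
    intro x y
    show hh σF (twM t g.1.1 *ᵥ x) (twM t g.1.1 *ᵥ y) = _
    rw [mulVec_e3 _ x, mulVec_e3 _ y]
    have hd : ∀ s s', hh σF (twM t g.1.1 *ᵥ e3 s) (twM t g.1.1 *ᵥ e3 s') =
        if s = s' then 1 else 0 := by
      intro s s'
      rw [hh_twM hc ht, g.2, hh_e3]
      split_ifs with h
      · subst h
        rw [map_one, mul_one, ← mul_inv, ht, inv_one]
      · simp
    apply hh_comb <;> rw [hd] <;> simp⟩
  map_one' := by
    apply Subtype.ext; apply Subtype.ext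
    exact twM_one (fun r h => by
      have := ht r; rw [h, zero_mul] at this; exact zero_ne_one this)
  map_mul' := by
    intro g h
    apply Subtype.ext; apply Subtype.ext
    exact twM_mul (fun r h => by
      have := ht r; rw [h, zero_mul] at this; exact zero_ne_one this) _ _

lemma twHom_val (hc : ∀ x, σF (algebraMap k F x) = algebraMap k F (σk x)) (t : Fin 3 → F)
    (ht : ∀ r, t r * σF (t r) = 1) (g : SU σk) : (twHom hc t ht g).1.1 = twM t g.1.1 := rfl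

/-- entries of an element of the stabiliser -/
lemma HH_entries {a : Fin 3} {g : SU σk} (hg : g ∈ HH σk a) (r s : Fin 3)
    (h : (r = a ∧ s ≠ a) ∨ (r ≠ a ∧ s = a)) : g.1.1 r s = 0 := by
  obtain ⟨μ, hμ, hg'⟩ := hg
  rcases h with ⟨rfl, hs⟩ | ⟨hr, rfl⟩
  · have h1 := g.2 (e3 s) (e3 r)
    rw [hg', hh_smul_right, hh_e3, if_neg hs] at h1
    have h2 : hh σk (g.1.1 *ᵥ e3 s) (e3 r) = g.1.1 r s := by
      fin_cases r <;> simp [hh, e3]
    rw [h2] at h1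
    exact (mul_eq_zero.1 h1).resolve_left fun h => hμ ((map_eq_zero σk).1 h)
  · have h1 := congrFun hg' r
    simpa [e3, hr] using h1

lemma twM_eq_of {a : Fin 3} {g : SU σk} (hg : g ∈ HH σk a) {t t' : Fin 3 → F}
    (ht : ∀ r, t r ≠ 0) (ht' : ∀ r, t' r ≠ 0)
    (h : ∀ r s, r ≠ a → s ≠ a → t r * (t s)⁻¹ = t' r * (t' s)⁻¹) :
    twM t g.1.1 = twM t' g.1.1 := by
  ext r s
  simp only [twM, Matrix.of_apply]
  by_cases hr : r = a
  · by_cases hs : s = a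
    · subst hr; subst hs
      rw [mul_inv_cancel₀ (ht _), mul_inv_cancel₀ (ht' _)]
    · rw [HH_entries hg r s (Or.inl ⟨hr, hs⟩)]; simp
  · by_cases hs : s = a
    · rw [HH_entries hg r s (Or.inr ⟨hr, hs⟩)]; simp
    · rw [h r s hr hs]

/-- the three twists -/
def tau (ζ : F) : Fin 3 → Fin 3 → F := ![![1, 1, 1], ![1, 1, ζ], ![1, ζ⁻¹, 1]]

lemma tau_norm {ζ : F} (hζ : ζ * σF ζ = 1) (i r : Fin 3) :
    tau ζ i r * σF (tau ζ i r) = 1 := by
  fin_cases i <;> fin_cases r <;> simp [tau, hζ]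
  rw [← mul_inv, hζ, inv_one]

lemma tau_compat {ζ : F} (hζ : ζ ≠ 0) (i j a r s : Fin 3) (hij : i ≠ j) (hja : j ≠ a)
    (hia : i ≠ a) (hr : r ≠ a) (hs : s ≠ a) :
    tau ζ i r * (tau ζ i s)⁻¹ = tau ζ j r * (tau ζ j s)⁻¹ := by
  fin_cases i <;> fin_cases j <;> fin_cases a <;> fin_cases r <;> fin_cases s <;>
    first
    | (exfalso; revert hij hja hia hr hs; decide)
    | (simp [tau, hζ]; done)

variable (hσ : ∀ x, σF (σF x) = x) (h2 : (2 : F) ≠ 0) {θ : k}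
  (hc : ∀ x, σF (algebraMap k F x) = algebraMap k F (σk x))

/-- the three embeddings -/
def iota (hσ : ∀ x, σF (σF x) = x) (h2 : (2 : F) ≠ 0) (θ : k)
    (hc : ∀ x, σF (algebraMap k F x) = algebraMap k F (σk x))
    (hθ : algebraMap k F θ * σF (algebraMap k F θ) = -1) {ζ : F} (hζ : ζ * σF ζ = 1)
    (i : Fin 3) : SU σk →* SJ σF :=
  (conjHom hσ h2 hθ).comp (twHom hc (tau ζ i) (tau_norm hζ i))

lemma iota_compat (hθ : algebraMap k F θ * σF (algebraMap k F θ) = -1) {ζ : F}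
    (hζ : ζ * σF ζ = 1) (i j a : Fin 3) (hij : i ≠ j) (hja : j ≠ a) (hia : i ≠ a)
    (g : SU σk) (hg : g ∈ HH σk a) :
    iota hσ h2 θ hc hθ hζ i g = iota hσ h2 θ hc hθ hζ j g := by
  have hζ0 : ζ ≠ 0 := by rintro rfl; rw [zero_mul] at hζ; exact zero_ne_one hζ
  have hne : ∀ i r, tau ζ i r ≠ 0 := fun i r h => by
    have := tau_norm hζ i r
    rw [h, zero_mul] at this
    exact zero_ne_one this
  unfold iota
  rw [MonoidHom.comp_apply, MonoidHom.comp_apply]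
  congr 1
  apply Subtype.ext; apply Subtype.ext
  rw [twHom_val, twHom_val]
  exact twM_eq_of hg (hne i) (hne j) fun r s hr hs => tau_compat hζ0 i j a r s hij hja hia hr hs

end tw

end Pool.Agent.W332.PT
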