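import Mathlib
import Pool.Agent.W332.PT.Embed

/-!
# The three embeddings generate
-/

set_option autoImplicit false

namespace Pool.Agent.W332.PT

open Matrix

section perm

variable {k : Type} [Field k] {σ : k →+* k}

/-- exchange of the first and third coordinates -/
def p1 : SU σ := ⟨⟨!![0, 0, 1; 0, 1, 0; -1, 0, 0], by simp [Matrix.det_fin_three]⟩, by
  intro x y
  have e : ∀ z : Fin 3 → k, (!![0, 0, 1; 0, 1, 0; -1, 0, 0] : Matrix (Fin 3) (Fin 3) k) *ᵥ z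
      = ![z 2, z 1, -z 0] := by
    intro z; ext i; fin_cases i <;> simp [Matrix.mulVec, dotProduct, Fin.sum_univ_three]
  show hh σ (!![0, 0, 1; 0, 1, 0; -1, 0, 0] *ᵥ x) (!![0, 0, 1; 0, 1, 0; -1, 0, 0] *ᵥ y) = _
  rw [e, e]; simp [hh]; ring⟩

/-- inverse of `p1` -/
def p1i : SU σ := ⟨⟨!![0, 0, -1; 0, 1, 0; 1, 0, 0], by simp [Matrix.det_fin_three]⟩, by
  intro x y
  have e : ∀ z : Fin 3 → k, (!![0, 0, -1; 0, 1, 0; 1, 0, 0] : Matrix (Fin 3) (Fin 3) k) *ᵥ z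
      = ![-z 2, z 1, z 0] := by
    intro z; ext i; fin_cases i <;> simp [Matrix.mulVec, dotProduct, Fin.sum_univ_three]
  show hh σ (!![0, 0, -1; 0, 1, 0; 1, 0, 0] *ᵥ x) (!![0, 0, -1; 0, 1, 0; 1, 0, 0] *ᵥ y) = _
  rw [e, e]; simp [hh]; ring⟩

/-- exchange of the second and third coordinates -/
def p2 : SU σ := ⟨⟨!![1, 0, 0; 0, 0, 1; 0, -1, 0], by simp [Matrix.det_fin_three]⟩, by
  intro x y
  have e : ∀ z : Fin 3 → k, (!![1, 0, 0; 0, 0, 1; 0, -1, 0] : Matrix (Fin 3) (Fin 3) k) *ᵥ z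
      = ![z 0, z 2, -z 1] := by
    intro z; ext i; fin_cases i <;> simp [Matrix.mulVec, dotProduct, Fin.sum_univ_three]
  show hh σ (!![1, 0, 0; 0, 0, 1; 0, -1, 0] *ᵥ x) (!![1, 0, 0; 0, 0, 1; 0, -1, 0] *ᵥ y) = _
  rw [e, e]; simp [hh]; ring⟩

/-- inverse of `p2` -/
def p2i : SU σ := ⟨⟨!![1, 0, 0; 0, 0, -1; 0, 1, 0], by simp [Matrix.det_fin_three]⟩, by
  intro x y
  have e : ∀ z : Fin 3 → k, (!![1, 0, 0; 0, 0, -1; 0, 1, 0] : Matrix (Fin 3) (Fin 3) k) *ᵥ z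
      = ![z 0, -z 2, z 1] := by
    intro z; ext i; fin_cases i <;> simp [Matrix.mulVec, dotProduct, Fin.sum_univ_three]
  show hh σ (!![1, 0, 0; 0, 0, -1; 0, 1, 0] *ᵥ x) (!![1, 0, 0; 0, 0, -1; 0, 1, 0] *ᵥ y) = _
  rw [e, e]; simp [hh]; ring⟩

end perm

section gen

variable {k F : Type} [Field k] [Field F] [Algebra k F] {σk : k →+* k} {σF : F →+* F}

lemma iota_zero (hσ : ∀ x, σF (σF x) = x) (hσk : ∀ x, σk (σk x) = x)
    (h2 : (2 : F) ≠ 0) (h2k : (2 : k) ≠ 0) {θ : k}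
    (hc : ∀ x, σF (algebraMap k F x) = algebraMap k F (σk x))
    (hθk : θ * σk θ = -1)
    (hθ : algebraMap k F θ * σF (algebraMap k F θ) = -1) {ζ : F} (hζ : ζ * σF ζ = 1)
    (g' : SJ σk) : ∃ g : SU σk, (iota hσ h2 θ hc hθ hζ 0 g).1.1 =
      g'.1.1.map (algebraMap k F) := by
  obtain ⟨g, hg⟩ := exists_preimage hσk h2k hθk g'
  refine ⟨g, ?_⟩
  show Am σF (algebraMap k F θ) * twM (tau ζ 0) g.1.1 * Cm (algebraMap k F θ) = _
  have e1 : twM (tau ζ 0) g.1.1 = g.1.1.map (algebraMap k F) := by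
    ext r s
    fin_cases r <;> fin_cases s <;> simp [twM, tau]
  have a2 : algebraMap k F 2 = 2 := map_ofNat _ 2
  have e2 : (Am σk θ).map (algebraMap k F) = Am σF (algebraMap k F θ) := by
    ext r s
    fin_cases r <;> fin_cases s <;> simp [Am, hc, a2]
  have e3 : (Cm θ).map (algebraMap k F) = Cm (algebraMap k F θ) := by
    ext r s
    fin_cases r <;> fin_cases s <;> simp [Cm, a2]
  rw [e1, hg, ← e2, ← e3]
  rw [← Matrix.map_mul, ← Matrix.map_mul]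
  congr 1
  calc Am σk θ * (Cm θ * g'.1.1 * Am σk θ) * Cm θ
      = (Am σk θ * Cm θ) * g'.1.1 * (Am σk θ * Cm θ) := by simp only [mul_assoc]
    _ = g'.1.1 := by rw [Am_mul_Cm h2k hθk, one_mul, mul_one]

/-- the special torus element -/
lemma exists_s (hσ : ∀ x, σF (σF x) = x)
    (h2 : (2 : F) ≠ 0) {θ : k}
    (hc : ∀ x, σF (algebraMap k F x) = algebraMap k F (σk x))
    (hθ : algebraMap k F θ * σF (algebraMap k F θ) = -1) {ζ : F} (hζ : ζ * σF ζ = 1)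
    (M : Subgroup (SJ σF)) (hM : ∀ i g, iota hσ h2 θ hc hθ hζ i g ∈ M) :
    ∃ s ∈ M, s.1.1 = !![ζ, 0, 0; 0, ζ⁻¹ * ζ⁻¹, 0; 0, 0, ζ] := by
  have hζ0 : ζ ≠ 0 := by rintro rfl; rw [zero_mul] at hζ; exact zero_ne_one hζ
  refine ⟨(iota hσ h2 θ hc hθ hζ 1 p2 * iota hσ h2 θ hc hθ hζ 0 p2i) *
    (iota hσ h2 θ hc hθ hζ 1 p2 * iota hσ h2 θ hc hθ hζ 0 p2i) *
    (iota hσ h2 θ hc hθ hζ 0 p1 * iota hσ h2 θ hc hθ hζ 1 p1i), ?_, ?_⟩
  · exact M.mul_mem (M.mul_mem (M.mul_mem (hM _ _) (hM _ _)) (M.mul_mem (hM _ _) (hM _ _)))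
      (M.mul_mem (hM _ _) (hM _ _))
  · unfold iota
    simp only [MonoidHom.comp_apply]
    rw [← map_mul, ← map_mul, ← map_mul, ← map_mul, conjHom_val]
    have e1 : twM (tau ζ 1) (p2 : SU σk).1.1 * twM (tau ζ 0) (p2i : SU σk).1.1 =
        !![1, 0, 0; 0, ζ⁻¹, 0; 0, 0, ζ] := by
      ext r s
      fin_cases r <;> fin_cases s <;>
        simp [twM, tau, p2, p2i, Matrix.mul_apply, Fin.sum_univ_three]
    have e2 : twM (tau ζ 0) (p1 : SU σk).1.1 * twM (tau ζ 1) (p1i : SU σk).1.1 =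
        !![ζ, 0, 0; 0, 1, 0; 0, 0, ζ⁻¹] := by
      ext r s
      fin_cases r <;> fin_cases s <;>
        simp [twM, tau, p1, p1i, Matrix.mul_apply, Fin.sum_univ_three]
    have e3 : ((twHom hc (tau ζ 1) (tau_norm hζ 1) p2 * twHom hc (tau ζ 0) (tau_norm hζ 0) p2i) *
        (twHom hc (tau ζ 1) (tau_norm hζ 1) p2 * twHom hc (tau ζ 0) (tau_norm hζ 0) p2i) *
        (twHom hc (tau ζ 0) (tau_norm hζ 0) p1 * twHom hc (tau ζ 1) (tau_norm hζ 1) p1i)).1.1 =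
        !![ζ, 0, 0; 0, ζ⁻¹ * ζ⁻¹, 0; 0, 0, ζ] := by
      show (twM (tau ζ 1) (p2 : SU σk).1.1 * twM (tau ζ 0) (p2i : SU σk).1.1) *
        (twM (tau ζ 1) (p2 : SU σk).1.1 * twM (tau ζ 0) (p2i : SU σk).1.1) *
        (twM (tau ζ 0) (p1 : SU σk).1.1 * twM (tau ζ 1) (p1i : SU σk).1.1) = _
      rw [e1, e2]
      ext r s
      fin_cases r <;> fin_cases s <;>
        simp [Matrix.mul_apply, Fin.sum_univ_three, hζ0]
    rw [e3]
    have e4 : Am σF (algebraMap k F θ) * !![ζ, 0, 0; 0, ζ⁻¹ * ζ⁻¹, 0; 0, 0, ζ] =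
        !![ζ, 0, 0; 0, ζ⁻¹ * ζ⁻¹, 0; 0, 0, ζ] * Am σF (algebraMap k F θ) := by
      ext r s
      fin_cases r <;> fin_cases s <;>
        simp [Am, Matrix.mul_apply, Fin.sum_univ_three] <;> ring
    rw [e4, mul_assoc, Am_mul_Cm h2 hθ, mul_one]

theorem gen (hσ : ∀ x, σF (σF x) = x) (hσk : ∀ x, σk (σk x) = x)
    (h2 : (2 : F) ≠ 0) (h2k : (2 : k) ≠ 0) {θ : k}
    (hc : ∀ x, σF (algebraMap k F x) = algebraMap k F (σk x))
    (hθk : θ * σk θ = -1)
    (hθ : algebraMap k F θ * σF (algebraMap k F θ) = -1) {ζ : F} (hζ : ζ * σF ζ = 1)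
    (hN : NormSurj σF) (hadj : Algebra.adjoin k {ζ ^ 3} = ⊤)
    (M : Subgroup (SJ σF)) (hM : ∀ i g, iota hσ h2 θ hc hθ hζ i g ∈ M) : M = ⊤ := by
  have hζ0 : ζ ≠ 0 := by rintro rfl; rw [zero_mul] at hζ; exact zero_ne_one hζ
  -- the Weyl element
  have hw : (wS : SJ σF) ∈ M := by
    obtain ⟨g, hg⟩ := iota_zero hσ hσk h2 h2k hc hθk hθ hζ (wS : SJ σk)
    have : (wS : SJ σF) = iota hσ h2 θ hc hθ hζ 0 g := by
      apply SJ_ext
      rw [hg]
      show (wM : Matrix (Fin 3) (Fin 3) F) = (wM : Matrix (Fin 3) (Fin 3) k).map _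
      ext r s
      fin_cases r <;> fin_cases s <;> simp [wM]
    rw [this]; exact hM _ _
  -- first coordinates
  let B : AddSubgroup F :=
    { carrier := {a | ∃ (b : F) (hb : b + σF b + a * σF a = 0), uS hσ a b hb ∈ M}
      add_mem' := by
        rintro a a' ⟨b, hb, h⟩ ⟨b', hb', h'⟩
        refine ⟨_, uS_cond hσ hb hb', ?_⟩
        rw [← uS_mul hσ hb hb' (uS_cond hσ hb hb')]
        exact M.mul_mem h h'
      zero_mem' := by
        refine ⟨0, by simp, ?_⟩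
        rw [uS_one]
        exact M.one_mem
      neg_mem' := by
        rintro a ⟨b, hb, h⟩
        have hi : σF b + σF (σF b) + (-a) * σF (-a) = 0 := by
          rw [hσ, map_neg]; linear_combination hb
        refine ⟨σF b, hi, ?_⟩
        rw [← uS_inv hσ hb hi]
        exact M.inv_mem h }
  obtain ⟨s, hsM, hs⟩ := exists_s hσ h2 hc hθ hζ M hM
  have hσζ : σF ζ = ζ⁻¹ := eq_inv_of_mul_eq_one_right hζ
  have hBmul : ∀ a ∈ B, ζ ^ 3 * a ∈ B := by
    rintro a ⟨b, hb, h⟩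
    have hb' : b + σF b + (ζ ^ 3 * a) * σF (ζ ^ 3 * a) = 0 := by
      rw [map_mul, map_pow, hσζ]
      field_simp
      linear_combination hb
    refine ⟨b, hb', ?_⟩
    have e : s * uS hσ a b hb = uS hσ (ζ ^ 3 * a) b hb' * s := by
      apply SJ_ext
      show s.1.1 * uM σF a b = uM σF (ζ ^ 3 * a) b * s.1.1
      rw [hs]
      ext i j
      fin_cases i <;> fin_cases j <;>
        simp [uM, Matrix.mul_apply, Fin.sum_univ_three, hσζ] <;> field_simp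
    have e2 : uS hσ (ζ ^ 3 * a) b hb' = s * uS hσ a b hb * s⁻¹ := by
      rw [e]; group
    rw [e2]
    exact M.mul_mem (M.mul_mem hsM h) (M.inv_mem hsM)
  have hBk : ∀ a : k, algebraMap k F a ∈ B := by
    intro a
    have hb : (-(a * σk a) / 2) + σk (-(a * σk a) / 2) + a * σk a = 0 := by
      rw [map_div₀, map_neg, map_mul, hσk, map_ofNat]
      field_simp
      ring
    obtain ⟨g, hg⟩ := iota_zero hσ hσk h2 h2k hc hθk hθ hζ (uS hσk a _ hb)
    set b := -(a * σk a) / 2 with hbdef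
    have hb' : algebraMap k F b + σF (algebraMap k F b) + algebraMap k F a * σF (algebraMap k F a)
        = 0 := by
      rw [hc, hc, ← map_mul, ← map_add, ← map_add, hb, map_zero]
    refine ⟨algebraMap k F b, hb', ?_⟩
    have : uS hσ (algebraMap k F a) (algebraMap k F b) hb' = iota hσ h2 θ hc hθ hζ 0 g := by
      apply SJ_ext
      rw [hg]
      show uM σF _ _ = (uM σk a b).map _
      ext r s
      fin_cases r <;> fin_cases s <;> simp [uM, hc]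
    rw [this]; exact hM _ _
  have hBpow : ∀ (m : ℕ) (a : k), algebraMap k F a * (ζ ^ 3) ^ m ∈ B := by
    intro m
    induction m with
    | zero => intro a; simpa using hBk a
    | succ m ih =>
      intro a
      have := hBmul _ (ih a)
      have e : algebraMap k F a * (ζ ^ 3) ^ (m + 1) = ζ ^ 3 * (algebraMap k F a * (ζ ^ 3) ^ m) := by
        ring
      rw [e]; exact this
  have hBtop : ∀ a : F, a ∈ B := by
    intro a
    have ha : a ∈ Algebra.adjoin k {ζ ^ 3} := by rw [hadj]; trivial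
    rw [Algebra.adjoin_singleton_eq_range_aeval] at ha
    obtain ⟨p, rfl⟩ := ha
    show Polynomial.aeval (ζ ^ 3) p ∈ B
    rw [Polynomial.aeval_eq_sum_range]
    apply B.sum_mem
    intro i _
    rw [Algebra.smul_def]
    exact hBpow i _
  exact top_of hσ hN M (US_le_of_fst hσ h2 M hBtop) hw

end gen

end Pool.Agent.W332.PT
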