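import Mathlib
import Pool.Agent.W332.PT.Gen

/-!
# A group with property (T) mapping onto infinitely many groups `PSU_3(q)`
-/

set_option autoImplicit false

namespace Pool.Agent.W332.PT

open Matrix

instance fact5 : Fact (Nat.Prime 5) := ⟨by norm_num⟩

/-- the field with 25 elements -/
abbrev k5 : Type := GaloisField 5 2

noncomputable instance : Fintype k5 := Fintype.ofFinite _

/-- its involution -/
noncomputable def σ5 : k5 →+* k5 := frobenius k5 5

lemma k5_card : Nat.card k5 = 5 ^ 2 := GaloisField.card 5 2 two_ne_zero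

lemma herm_k5 : HermField k5 σ5 5 where
  card := by rw [← Nat.card_eq_fintype_card, k5_card]
  pow x := rfl
  two := by
    have h : ((2 : ℕ) : k5) ≠ 0 := by
      rw [Ne, CharP.cast_eq_zero_iff k5 5]
      norm_num
    exact_mod_cast h

section ext

variable (d : ℕ) [NeZero d]

/-- extension fields -/
abbrev Fd : Type := FiniteField.Extension k5 5 d

noncomputable instance : Fintype (Fd d) := Fintype.ofFinite _

instance charFd : CharP (Fd d) 5 := charP_of_injective_algebraMap (algebraMap (ZMod 5) (Fd d)).injective 5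

/-- the involution of the extension (for odd `d`) -/
noncomputable def σd : Fd d →+* Fd d := iterateFrobenius (Fd d) 5 d

lemma Fd_card : Nat.card (Fd d) = (5 ^ d) ^ 2 := by
  rw [FiniteField.natCard_extension, k5_card, ← pow_mul, ← pow_mul, mul_comm]

lemma σd_apply (x : Fd d) : σd d x = x ^ (5 ^ d) := by
  rw [σd, iterateFrobenius_def]

lemma herm_Fd : HermField (Fd d) (σd d) (5 ^ d) where
  card := by rw [← Nat.card_eq_fintype_card, Fd_card]
  pow x := σd_apply d x
  two := by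
    have h : ((2 : ℕ) : Fd d) ≠ 0 := by
      rw [Ne, CharP.cast_eq_zero_iff (Fd d) 5]
      norm_num
    exact_mod_cast h

lemma compat (hd : Odd d) (x : k5) :
    σd d (algebraMap k5 (Fd d) x) = algebraMap k5 (Fd d) (σ5 x) := by
  rw [σd_apply, ← map_pow]
  congr 1
  obtain ⟨m, hm⟩ := hd
  have h25 : x ^ (5 ^ 2) = x := by
    have := FiniteField.pow_card x
    rwa [← Nat.card_eq_fintype_card, k5_card] at this
  have hpow : ∀ m : ℕ, x ^ ((5 ^ 2) ^ m) = x := by
    intro m
    induction m with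
    | zero => simp
    | succ m ih => rw [pow_succ, pow_mul, ih, h25]
  show x ^ (5 ^ d) = x ^ 5
  rw [hm, pow_succ, pow_mul 5 2 m, pow_mul, hpow]

lemma exists_zeta : ∃ ζ : Fd d, ζ * σd d ζ = 1 ∧
    ∀ m : ℕ, ζ ^ m = 1 → (5 ^ d + 1) ∣ m := by
  obtain ⟨g, hg⟩ := IsCyclic.exists_generator (α := (Fd d)ˣ)
  have ho : orderOf g = (5 ^ d) ^ 2 - 1 := by
    rw [orderOf_eq_card_of_forall_mem_zpowers hg, Nat.card_units, Fd_card]
  have h3 : (5 ^ d) ^ 2 - 1 = (5 ^ d + 1) * (5 ^ d - 1) := by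
    have := Nat.sq_sub_sq (5 ^ d) 1
    simpa using this
  have h5 : 1 < 5 ^ d := Nat.one_lt_pow (NeZero.ne d) (by norm_num)
  have ho2 : orderOf (g ^ (5 ^ d - 1)) = 5 ^ d + 1 := by
    rw [orderOf_pow_of_dvd (by omega) (by rw [ho, h3]; exact dvd_mul_left _ _), ho, h3]
    exact Nat.mul_div_cancel _ (by omega)
  refine ⟨((g ^ (5 ^ d - 1) : (Fd d)ˣ) : Fd d), ?_, ?_⟩
  · rw [σd_apply, ← pow_succ', ← Units.val_pow_eq_pow_val, ← ho2, pow_orderOf_eq_one,
      Units.val_one]
  · intro m hm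
    rw [← ho2]
    apply orderOf_dvd_of_pow_eq_one
    ext
    rw [Units.val_pow_eq_pow_val, hm, Units.val_one]

lemma adjoin_top (hd : d.Prime) (hd3 : 3 ≤ d) (ζ : Fd d) (hz0 : ζ ≠ 0)
    (hζ : ∀ m : ℕ, ζ ^ m = 1 → (5 ^ d + 1) ∣ m) :
    Algebra.adjoin k5 {ζ ^ 3} = ⊤ := by
  have hfin : (Module.finrank k5 (Fd d)).Prime := by
    rw [FiniteField.finrank_extension]; exact hd
  have := Subalgebra.isSimpleOrder_of_finrank_prime k5 (Fd d) hfin
  rcases eq_bot_or_eq_top (Algebra.adjoin k5 {ζ ^ 3}) with h | h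
  · exfalso
    have h1 : ζ ^ 3 ∈ (⊥ : Subalgebra k5 (Fd d)) := by
      rw [← h]; exact Algebra.subset_adjoin rfl
    rw [Algebra.mem_bot] at h1
    obtain ⟨x, hx⟩ := h1
    have hdne : d ≠ 0 := NeZero.ne d
    have hbig : 5 ^ 3 ≤ 5 ^ d := Nat.pow_le_pow_right (by norm_num) hd3
    have hx0 : x ≠ 0 := by
      rintro rfl
      rw [map_zero] at hx
      exact hz0 (pow_eq_zero_iff (three_ne_zero) |>.1 hx.symm)
    have hx24 : x ^ 24 = 1 := by
      have h25 : x ^ (5 ^ 2) = x := by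
        have := FiniteField.pow_card x
        rwa [← Nat.card_eq_fintype_card, k5_card] at this
      have : x ^ 24 * x = 1 * x := by rw [← pow_succ, one_mul]; exact h25
      exact mul_right_cancel₀ hx0 this
    have h72 : ζ ^ 72 = 1 := by
      have : ζ ^ 72 = (ζ ^ 3) ^ 24 := by rw [← pow_mul]
      rw [this, ← hx, ← map_pow, hx24, map_one]
    have := Nat.le_of_dvd (by norm_num) (hζ 72 h72)
    omega
  · exact h

end ext

/-! ### the group -/

/-- index set: odd primes -/
abbrev Idx : Type := {d : ℕ // d.Prime ∧ 3 ≤ d}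

instance (d : Idx) : NeZero d.1 := ⟨d.2.1.ne_zero⟩

lemma Idx.odd (d : Idx) : Odd d.1 := d.2.1.odd_of_ne_two (by have := d.2.2; omega)

lemma exists_theta : ∃ θ : k5, θ * σ5 θ = -1 := herm_k5.norm_surj (-1) (by simp)

/-- an element of norm `-1` -/
noncomputable def θ5 : k5 := exists_theta.choose

lemma θ5_spec : θ5 * σ5 θ5 = -1 := exists_theta.choose_spec

lemma θ5_ext (d : Idx) : algebraMap k5 (Fd d.1) θ5 * σd d.1 (algebraMap k5 (Fd d.1) θ5) = -1 := by
  rw [compat d.1 d.odd, ← map_mul, θ5_spec, map_neg, map_one]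

/-- a generator of the norm one group -/
noncomputable def zeta (d : Idx) : Fd d.1 := (exists_zeta d.1).choose

lemma zeta_norm (d : Idx) : zeta d * σd d.1 (zeta d) = 1 := (exists_zeta d.1).choose_spec.1

lemma zeta_order (d : Idx) : ∀ m : ℕ, zeta d ^ m = 1 → (5 ^ d.1 + 1) ∣ m :=
  (exists_zeta d.1).choose_spec.2

/-- the embeddings in the individual groups -/
noncomputable def io (d : Idx) (i : Fin 3) : SU σ5 →* SJ (σd d.1) :=
  iota (herm_Fd d.1).invol (herm_Fd d.1).two θ5 (compat d.1 d.odd) (θ5_ext d) (zeta_norm d) i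

/-- the embeddings in the product -/
noncomputable def ioAll (i : Fin 3) : SU σ5 →* ((d : Idx) → SJ (σd d.1)) :=
  MonoidHom.pi fun d => io d i

/-- the group with property (T) -/
abbrev GG : Type := Subgroup.closure (⋃ i, Set.range (ioAll i))

/-- the embeddings in `GG` -/
noncomputable def ioG (i : Fin 3) : SU σ5 →* GG :=
  (ioAll i).codRestrict _ fun g => Subgroup.subset_closure (Set.mem_iUnion.2 ⟨i, g, rfl⟩)

lemma ioG_gen : Subgroup.closure (⋃ i, Set.range (ioG i)) = ⊤ := by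
  have h : (⋃ i, Set.range (ioG i)) =
      ((↑) ⁻¹' (⋃ i, Set.range (ioAll i)) : Set GG) := by
    ext x
    simp only [Set.mem_iUnion, Set.mem_range, Set.mem_preimage]
    constructor
    · rintro ⟨i, g, rfl⟩; exact ⟨i, g, rfl⟩
    · rintro ⟨i, g, hg⟩; exact ⟨i, g, Subtype.ext hg⟩
  rw [h]
  exact Subgroup.closure_closure_coe_preimage

lemma ioG_compat (i j a : Fin 3) (hij : i ≠ j) (hja : j ≠ a) (hia : i ≠ a)
    (h : SU σ5) (hh : h ∈ HH σ5 a) : ioG i h = ioG j h := by
  apply Subtype.ext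
  show ioAll i h = ioAll j h
  funext d
  show io d i h = io d j h
  exact iota_compat (herm_Fd d.1).invol (herm_Fd d.1).two (compat d.1 d.odd) (θ5_ext d)
    (zeta_norm d) i j a hij hja hia h hh

theorem GG_propT (V : Type) [NormedAddCommGroup V] [InnerProductSpace ℂ V] [CompleteSpace V]
    (ρ : GG →* unitary (V →L[ℂ] V))
    (hai : ∀ (S : Finset GG) (ε : ℝ), 0 < ε →
      ∃ v : V, ‖v‖ = 1 ∧ ∀ s ∈ S, ‖(ρ s : V →L[ℂ] V) v - v‖ < ε) :
    ∃ v : V, v ≠ 0 ∧ ∀ g : GG, (ρ g : V →L[ℂ] V) v = v := by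
  classical
  have : Fintype (SU σ5) := Fintype.ofFinite _
  refine propT ioG (HH σ5) ioG_gen ioG_compat (ε := 1 / (((5 : ℕ) : ℝ) - 1)) ?_ ?_
    (local_LP herm_k5) V ρ hai
  · norm_num
  · norm_num

/-- the projection to a factor -/
noncomputable def proj (d : Idx) : GG →* SJ (σd d.1) :=
  (Pi.evalMonoidHom (fun d : Idx => SJ (σd d.1)) d).comp (Subgroup.subtype _)

lemma proj_surj (d : Idx) : Function.Surjective (proj d) := by
  rw [← MonoidHom.range_eq_top]
  have hz0 : zeta d ≠ 0 := by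
    intro h
    have := zeta_norm d
    rw [h, zero_mul] at this
    exact zero_ne_one this
  exact gen (herm_Fd d.1).invol herm_k5.invol (herm_Fd d.1).two herm_k5.two (compat d.1 d.odd)
    θ5_spec (θ5_ext d) (zeta_norm d) (herm_Fd d.1).norm_surj
    (adjoin_top d.1 d.2.1 d.2.2 (zeta d) hz0 (zeta_order d)) _
    (fun i g => ⟨ioG i g, rfl⟩)

/-- the quotient map -/
noncomputable def quo (d : Idx) : GG →* PSU (σd d.1) := (toPSU (σd d.1)).comp (proj d)

lemma quo_surj (d : Idx) : Function.Surjective (quo d) := toPSU_surj.comp (proj_surj d)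

section fin

variable {F : Type} [Field F] [Finite F] {σ : F →+* F}

instance : Finite (XJ σ) := by
  unfold XJ
  infer_instance

lemma card_XJ (hσ : ∀ x, σ (σ x) = x) (h2 : (2 : F) ≠ 0) : Nat.card F ≤ Nat.card (XJ σ) := by
  have hb : ∀ a : F, (-(a * σ a) / 2) + σ (-(a * σ a) / 2) + a * σ a = 0 := by
    intro a
    rw [map_div₀, map_neg, map_mul, hσ, map_ofNat]
    field_simp
    ring
  apply Nat.card_le_card_of_injective (fun a : F => uS hσ a _ (hb a) • x2 σ)
  intro a a' h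
  have h1 : uS hσ a _ (hb a) = uS hσ a' _ (hb a') := by
    apply toPSU_US_inj hσ (uS_mem hσ _) (uS_mem hσ _)
    have h3 : ((uS hσ a' _ (hb a'))⁻¹ * uS hσ a _ (hb a)) • x2 σ = x2 σ := by
      rw [mul_smul]
      simp only at h
      rw [h, inv_smul_smul]
    have h4 := US_regular hσ ((US σ).mul_mem ((US σ).inv_mem (uS_mem hσ (hb a')))
      (uS_mem hσ (hb a))) h3
    rw [inv_mul_eq_one] at h4
    rw [h4]
  have h5 : uM σ a (-(a * σ a) / 2) 0 1 = uM σ a' (-(a' * σ a') / 2) 0 1 := by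
    have := congrArg (fun g : SJ σ => g.1.1 0 1) h1
    exact this
  simpa [uM] using h5

lemma card_PSU (hσ : ∀ x, σ (σ x) = x) (h2 : (2 : F) ≠ 0) : Nat.card F ≤ Nat.card (PSU σ) := by
  have hb : ∀ a : F, (-(a * σ a) / 2) + σ (-(a * σ a) / 2) + a * σ a = 0 := by
    intro a
    rw [map_div₀, map_neg, map_mul, hσ, map_ofNat]
    field_simp
    ring
  apply Nat.card_le_card_of_injective (fun a : F => toPSU σ (uS hσ a _ (hb a)))
  intro a a' h
  have h1 : uS hσ a _ (hb a) = uS hσ a' _ (hb a') :=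
    toPSU_US_inj hσ (uS_mem hσ _) (uS_mem hσ _) h
  have h5 : uM σ a (-(a * σ a) / 2) 0 1 = uM σ a' (-(a' * σ a') / 2) 0 1 := by
    have := congrArg (fun g : SJ σ => g.1.1 0 1) h1
    exact this
  simpa [uM] using h5

end fin

end Pool.Agent.W332.PT
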